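import Pool.Agent.Run7.h206.SV.Spike

/-! # Counting self-avoiding walks with spikes -/

set_option autoImplicit false

namespace Run7.h206.SV

open scoped Classical

/-- the self-avoiding walks with `n` steps in `D` which start at `a` -/
def Wk (D : Set P) (n : ℕ) (a : P) : Set (List P) :=
  {l | l.length = n + 1 ∧ l.head? = some a ∧ l.IsChain Adj ∧ l.Nodup ∧ ∀ p ∈ l, p ∈ D}

/-- the four unit steps -/
def steps : Finset P := {(1, 0), (-1, 0), (0, 1), (0, -1)}

theorem adj_iff {p q : P} : Adj p q ↔ q - p ∈ steps := by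
  unfold Adj steps
  simp only [Finset.mem_insert, Finset.mem_singleton, Prod.ext_iff, Prod.fst_sub, Prod.snd_sub]
  constructor
  · intro h
    rcases abs_cases (p.1 - q.1) with h1 | h1 <;> rcases abs_cases (p.2 - q.2) with h2 | h2 <;> omega
  · intro h
    rcases abs_cases (p.1 - q.1) with h1 | h1 <;> rcases abs_cases (p.2 - q.2) with h2 | h2 <;> omega

theorem wk_succ (D : Set P) (n : ℕ) (a : P) : Wk D (n + 1) a ⊆
    (fun q : List P × P => q.1 ++ [q.1.getLastD 0 + q.2]) '' (Wk D n a ×ˢ (steps : Set P)) := by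
  rintro l ⟨h1, h2, h3, h4, h5⟩
  have hne : l ≠ [] := by
    rintro rfl
    simp at h1
  obtain ⟨m, b, rfl⟩ : ∃ m b, l = m ++ [b] := ⟨_, _, (List.dropLast_append_getLast hne).symm⟩
  have hm : m ≠ [] := by
    rintro rfl
    simp at h1
  rw [List.isChain_append] at h3
  have hg : m.getLast? = some (m.getLast hm) := List.getLast?_eq_some_getLast hm
  refine ⟨(m, b - m.getLastD 0), ⟨⟨?_, ?_, h3.1, ?_, ?_⟩, ?_⟩, ?_⟩
  · simpa using h1
  · rw [List.head?_append] at h2
    cases m with
    | nil => exact absurd rfl hm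
    | cons c m => simpa using h2
  · exact (List.nodup_append.1 h4).1
  · exact fun p hp => h5 p (List.mem_append_left _ hp)
  · have h6 := h3.2.2 (m.getLast hm) (by rw [hg]; rfl) b (by simp)
    rw [adj_iff] at h6
    rw [List.getLastD_eq_getLast?, hg]
    exact h6
  · simp

theorem wk_fin (D : Set P) (n : ℕ) (a : P) : (Wk D n a).Finite := by
  induction n with
  | zero =>
    refine (Set.finite_singleton [a]).subset ?_
    rintro l ⟨h1, h2, -⟩
    rw [Set.mem_singleton_iff]
    cases l with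
    | nil => simp at h1
    | cons b l =>
      simp only [List.length_cons, zero_add, Nat.add_eq_right, List.length_eq_zero_iff] at h1
      subst h1
      simpa using h2
  | succ n ih => exact ((ih.prod (Finset.finite_toSet _)).image _).subset (wk_succ D n a)

theorem wk_card_succ (D : Set P) (n : ℕ) (a : P) :
    (Wk D (n + 1) a).ncard ≤ 4 * (Wk D n a).ncard := by
  have h1 := (wk_fin D n a).prod (Finset.finite_toSet steps)
  refine (Set.ncard_le_ncard (wk_succ D n a) (h1.image _)).trans ?_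
  refine (Set.ncard_image_le h1).trans ?_
  rw [Set.ncard_prod, Set.ncard_coe_finset, mul_comm]
  exact Nat.mul_le_mul_right _ (by decide)

theorem wk_card_add (D : Set P) (n m : ℕ) (a : P) :
    (Wk D (n + m) a).ncard ≤ 4 ^ m * (Wk D n a).ncard := by
  induction m with
  | zero => simp
  | succ m ih =>
    have h := wk_card_succ D (n + m) a
    rw [← add_assoc, pow_succ]
    calc (Wk D (n + m + 1) a).ncard ≤ 4 * (Wk D (n + m) a).ncard := h
      _ ≤ 4 * (4 ^ m * (Wk D n a).ncard) := Nat.mul_le_mul_left _ ih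
      _ = _ := by ring

/-- the closed upper half-plane -/
def Up : Set P := {p | 0 ≤ p.2}

/-- the `x` in the residue class `c` (modulo 2), different from `0` and `-1`, such that the walk
contains the edge between `(x, k)` and `(x + 1, k)` and no site below this edge -/
def X (c : ℤ) (k : ℕ) (l : List P) : Finset ℤ :=
  (R k l).filter (fun x => x % 2 = c ∧ x ≠ 0 ∧ x ≠ -1 ∧
    ∀ p ∈ l, (p.1 = x ∨ p.1 = x + 1) → (k : ℤ) ≤ p.2)

/-- shift by one upwards -/
def sh (l : List P) : List P := l.map (fun p => p + (0, 1))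

theorem sh_inj : Function.Injective sh := by
  apply List.map_injective_iff.2
  intro p q h
  simpa using h

/-- the walk with the spikes, in the upper half-plane -/
def Phi (k : ℕ) (q : List P × Finset ℤ) : List P := (0, 0) :: sh (spk q.2 k q.1)

theorem notReg {c : ℤ} {k : ℕ} {l : List P} {S : Finset ℤ} (hS : S ⊆ X c k l) :
    ∀ p ∈ l, ¬ Reg S k p := by
  rintro p hp ⟨x, hx, h1, h2⟩
  have h3 := (Finset.mem_filter.1 (hS hx)).2.2.2.2 p hp h1
  omega

theorem phi_mem {c : ℤ} {k n : ℕ} {l : List P} (hl : l ∈ Wk Up n (0, 0)) {S : Finset ℤ}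
    (hS : S ⊆ X c k l) : Phi k (l, S) ∈ Wk Up (n + (1 + 2 * (k + 1) * S.card)) (0, 0) := by
  obtain ⟨h1, h2, h3, h4, h5⟩ := hl
  have hreg := notReg hS
  have hSR : S ⊆ R k l := fun x hx => (Finset.mem_filter.1 (hS hx)).1
  refine ⟨?_, rfl, ?_, ?_, ?_⟩
  · unfold Phi sh
    rw [List.length_cons, List.length_map, length_spk h3 h4, h1, Finset.inter_eq_left.2 hSR]
    ring
  · unfold Phi sh
    rw [show (0, 0) :: List.map (fun p : P => p + (0, 1)) (spk S k l) =
      [(0, 0)] ++ List.map (fun p : P => p + (0, 1)) (spk S k l) from rfl, List.isChain_append]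
    refine ⟨by simp, ?_, ?_⟩
    · rw [List.isChain_map]
      refine (chain_spk h3).imp (fun p q h => ?_)
      rw [adj_iff] at h ⊢
      simpa using h
    · intro x hx y hy
      rw [List.head?_map, head_spk, h2] at hy
      simp only [List.getLast?_singleton, Option.mem_def, Option.some.injEq, Option.map_some]
        at hx hy
      subst hx hy
      simp [Adj]
  · unfold Phi sh
    rw [List.nodup_cons]
    refine ⟨?_, ?_⟩
    · intro h
      rw [List.mem_map] at h
      obtain ⟨p, hp, h6⟩ := h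
      rw [Prod.ext_iff] at h6
      simp only [Prod.fst_add, Prod.snd_add] at h6
      rw [mem_spk h3] at hp
      rcases hp with hp | ⟨x, hx, -, h7, -⟩
      · have : 0 ≤ p.2 := h5 p hp
        omega
      · have := (Finset.mem_filter.1 (hS hx)).2
        omega
    · refine (nodup_spk (c := c) h3 h4 (fun x hx => (Finset.mem_filter.1 (hS hx)).2.1) hreg).map ?_
      intro p q h
      simpa using h
  · intro p hp
    unfold Phi sh at hp
    rw [List.mem_cons, List.mem_map] at hp
    rcases hp with rfl | ⟨p, hp, rfl⟩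
    · exact le_refl (0 : ℤ)
    · rw [mem_spk h3] at hp
      show (0 : ℤ) ≤ p.2 + 1
      rcases hp with hp | ⟨x, hx, -, h7, h8, -⟩
      · have : 0 ≤ p.2 := h5 p hp
        omega
      · omega

theorem sub_of_spk {c c' : ℤ} {k : ℕ} {l l' : List P} {S S' : Finset ℤ} (hcc : c = c')
    (h3 : l.IsChain Adj) (h3' : l'.IsChain Adj) (h5' : ∀ p ∈ l', p ∈ Up)
    (hS : S ⊆ X c k l) (hS' : S' ⊆ X c' k l') (h : spk S k l = spk S' k l') : S ⊆ S' := by
  intro x hx
  have hxR : x ∈ R k l := (Finset.mem_filter.1 (hS hx)).1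
  have h6 : (x, (-1 : ℤ)) ∈ spk S k l := by
    rw [mem_spk h3]
    exact Or.inr ⟨x, hx, hxR, Or.inl rfl, le_refl _, by simp; omega⟩
  rw [h, mem_spk h3'] at h6
  rcases h6 with h6 | ⟨y, hy, -, h7, -⟩
  · have : (0 : ℤ) ≤ -1 := h5' _ h6
    omega
  · have e1 := (Finset.mem_filter.1 (hS hx)).2.1
    have e2 := (Finset.mem_filter.1 (hS' hy)).2.1
    simp only at h7
    have : x = y := by omega
    rw [this]
    exact hy

theorem phi_inj {c : ℤ} {k n : ℕ} {l l' : List P} (hl : l ∈ Wk Up n (0, 0))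
    (hl' : l' ∈ Wk Up n (0, 0)) {S S' : Finset ℤ} (hS : S ⊆ X c k l) (hS' : S' ⊆ X c k l')
    (h : Phi k (l, S) = Phi k (l', S')) : l = l' ∧ S = S' := by
  have h1 : spk S k l = spk S' k l' := by
    unfold Phi at h
    exact sh_inj (List.cons_injective h)
  have h2 : S = S' := Finset.Subset.antisymm
    (sub_of_spk rfl hl.2.2.1 hl'.2.2.1 hl'.2.2.2.2 hS hS' h1)
    (sub_of_spk rfl hl'.2.2.1 hl.2.2.1 hl.2.2.2.2 hS' hS h1.symm)
  subst h2
  refine ⟨?_, rfl⟩
  rw [← filter_spk hl.2.2.1 (notReg hS), ← filter_spk hl'.2.2.1 (notReg hS'), h1]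

/-- the half-plane walks as a finite set -/
noncomputable def HF (n : ℕ) : Finset (List P) := (wk_fin Up n (0, 0)).toFinset

theorem mem_HF {n : ℕ} {l : List P} : l ∈ HF n ↔ l ∈ Wk Up n (0, 0) := by
  unfold HF
  rw [Set.Finite.mem_toFinset]

theorem card_HF (n : ℕ) : (HF n).card = (Wk Up n (0, 0)).ncard := by
  unfold HF
  rw [Set.ncard_eq_toFinset_card _ (wk_fin Up n (0, 0))]

theorem half_sum_le (J : Finset ℕ) : ∑ j ∈ J, (1 / 2 : ℝ) ^ j ≤ 2 := by
  have h := summable_geometric_two.sum_le_tsum J (fun j _ => by positivity)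
  rw [tsum_geometric_two] at h
  exact h

theorem exp_moment (c : ℤ) (k n : ℕ) :
    ∑ l ∈ HF n, (1 + 1 / (2 * (16 : ℝ) ^ (k + 1))) ^ (X c k l).card ≤ 8 * (HF n).card := by
  set t : ℝ := 1 / (2 * (16 : ℝ) ^ (k + 1)) with ht
  have ht0 : 0 < t := by positivity
  have h1 : ∀ l, (1 + t) ^ (X c k l).card = ∑ S ∈ (X c k l).powerset, t ^ S.card := by
    intro l
    rw [add_comm, ← Finset.sum_pow_mul_eq_add_pow]
    simp
  simp_rw [h1]
  rw [Finset.sum_sigma']
  set Q := (HF n).sigma (fun l => (X c k l).powerset) with hQ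
  set J := Q.image (fun q => q.2.card) with hJ
  have h2 : ∑ q ∈ Q, t ^ q.2.card = ∑ j ∈ J, ∑ q ∈ Q.filter (fun q => q.2.card = j), t ^ q.2.card := by
    rw [Finset.sum_fiberwise_of_maps_to]
    intro q hq
    exact Finset.mem_image_of_mem _ hq
  rw [h2]
  have h3 : ∀ j ∈ J, ∑ q ∈ Q.filter (fun q => q.2.card = j), t ^ q.2.card ≤
      4 * (1 / 2) ^ j * (HF n).card := by
    intro j _
    have h4 : ∑ q ∈ Q.filter (fun q => q.2.card = j), t ^ q.2.card =
        ((Q.filter (fun q => q.2.card = j)).card : ℝ) * t ^ j := by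
      rw [Finset.sum_congr rfl (fun q hq => by rw [(Finset.mem_filter.1 hq).2]), Finset.sum_const,
        nsmul_eq_mul]
    have h5 : (Q.filter (fun q => q.2.card = j)).card ≤ (HF (n + (1 + 2 * (k + 1) * j))).card := by
      refine Finset.card_le_card_of_injOn (fun q => Phi k (q.1, q.2)) ?_ ?_
      · intro q hq
        rw [Finset.mem_coe, Finset.mem_filter, hQ, Finset.mem_sigma, Finset.mem_powerset,
          mem_HF] at hq
        rw [Finset.mem_coe, mem_HF, ← hq.2]
        exact phi_mem hq.1.1 hq.1.2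
      · rintro ⟨l, S⟩ hq ⟨l', S'⟩ hq' h
        rw [Finset.mem_coe, Finset.mem_filter, hQ, Finset.mem_sigma, Finset.mem_powerset,
          mem_HF] at hq hq'
        obtain ⟨rfl, rfl⟩ := phi_inj hq.1.1 hq'.1.1 hq.1.2 hq'.1.2 h
        rfl
    have h6 : (HF (n + (1 + 2 * (k + 1) * j))).card ≤ 4 ^ (1 + 2 * (k + 1) * j) * (HF n).card := by
      rw [card_HF, card_HF]
      exact wk_card_add _ _ _ _
    have h7 : ((Q.filter (fun q => q.2.card = j)).card : ℝ) ≤
        4 ^ (1 + 2 * (k + 1) * j) * (HF n).card := by exact_mod_cast h5.trans h6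
    rw [h4]
    calc ((Q.filter (fun q => q.2.card = j)).card : ℝ) * t ^ j
        ≤ (4 ^ (1 + 2 * (k + 1) * j) * (HF n).card) * t ^ j := by gcongr
      _ = 4 * (1 / 2) ^ j * (HF n).card := by
        have e1 : (4 : ℝ) ^ (1 + 2 * (k + 1) * j) = 4 * (16 ^ (k + 1)) ^ j := by
          rw [pow_add, pow_one, pow_mul, pow_mul]
          norm_num
        have e2 : (16 ^ (k + 1) : ℝ) ^ j * t ^ j = (1 / 2) ^ j := by
          rw [← mul_pow, ht]
          congr 1
          field_simp
        rw [e1]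
        linear_combination 4 * ((HF n).card : ℝ) * e2
  refine (Finset.sum_le_sum h3).trans ?_
  rw [← Finset.sum_mul, ← Finset.mul_sum]
  have h8 := half_sum_le J
  have h9 : (0 : ℝ) ≤ (HF n).card := by positivity
  nlinarith

end Run7.h206.SV
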