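import Pool.Agent.Run7.h206.SV.Diam

/-! # All diametral sites -/

set_option autoImplicit false

namespace Run7.h206.SV

open scoped Classical

theorem mem_RF_of {f : ℤ → ℤ} {a b : P} (s t : List P) (ha : a.2 = f (min a.1 b.1))
    (hb : b.2 = f (min a.1 b.1)) : min a.1 b.1 ∈ RF f (s ++ a :: b :: t) := by
  induction s with
  | nil =>
    rw [List.nil_append, RF, if_pos ⟨ha, hb⟩]
    exact Finset.mem_insert_self _ _
  | cons c s ih =>
    cases s with
    | nil =>
      rw [List.nil_append] at ih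
      rw [List.cons_append, List.nil_append, RF]
      split_ifs
      · exact Finset.mem_insert_of_mem ih
      · exact ih
    | cons d s =>
      rw [List.cons_append] at ih
      rw [List.cons_append, List.cons_append, RF]
      split_ifs
      · exact Finset.mem_insert_of_mem ih
      · exact ih

theorem hor_nb' {l : List P} (hc : l.IsChain Adj) (hn : l.Nodup) {p : P}
    (hx : p ∈ l) (hlow : ∀ q ∈ l, q.1 = p.1 → p.2 ≤ q.2)
    (h1 : l.head? ≠ some p) (h2 : l.getLast? ≠ some p) (f : ℤ → ℤ) :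
    ∃ y : ℤ, (y = p.1 + 1 ∨ y = p.1 - 1) ∧ (y, p.2) ∈ l ∧
      (f (min p.1 y) = p.2 → min p.1 y ∈ RF f l) := by
  obtain ⟨s, t, rfl⟩ := List.append_of_mem hx
  have hs : s ≠ [] := by
    rintro rfl
    exact h1 rfl
  have ht : t ≠ [] := by
    rintro rfl
    exact h2 (by simp)
  obtain ⟨s', a, rfl⟩ : ∃ s' a, s = s' ++ [a] := ⟨_, _, (List.dropLast_append_getLast hs).symm⟩
  obtain ⟨b, t', rfl⟩ := List.exists_cons_of_ne_nil ht
  rw [List.append_assoc, List.cons_append, List.nil_append] at hc hn hlow ⊢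
  have hc1 := (List.isChain_append.1 hc).2.1
  rw [List.isChain_cons_cons, List.isChain_cons_cons] at hc1
  have hn1 := (List.nodup_append.1 hn).2.1
  have hab : a ≠ b := by
    rintro rfl
    rw [List.nodup_cons] at hn1
    exact hn1.1 (by simp)
  have ha := hc1.1
  have hb := hc1.2.1
  rw [adj_iff] at ha hb
  have ha' := hlow a (by simp)
  have hb' := hlow b (by simp)
  simp only [steps, Finset.mem_insert, Finset.mem_singleton, Prod.ext_iff, Prod.fst_sub,
    Prod.snd_sub] at ha hb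
  have hR1 : a.2 = p.2 → f (min p.1 a.1) = p.2 →
      min p.1 a.1 ∈ RF f (s' ++ a :: p :: b :: t') := fun h h' => by
    rw [min_comm] at h' ⊢
    exact mem_RF_of (a := a) (b := p) s' (b :: t') (h.trans h'.symm) h'.symm
  have hR2 : b.2 = p.2 → f (min p.1 b.1) = p.2 →
      min p.1 b.1 ∈ RF f (s' ++ a :: p :: b :: t') := fun h h' => by
    have := mem_RF_of (a := p) (b := b) (s' ++ [a]) t' h'.symm (h.trans h'.symm)
    rwa [List.append_assoc, List.cons_append, List.nil_append] at this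
  have key : a.2 = p.2 ∨ b.2 = p.2 := by
    by_contra hcon
    rw [not_or] at hcon
    apply hab
    rw [Prod.ext_iff]
    have h5 : a.1 = p.1 ∧ a.2 = p.2 + 1 := by omega
    have h6 : b.1 = p.1 ∧ b.2 = p.2 + 1 := by omega
    exact ⟨h5.1.trans h6.1.symm, h5.2.trans h6.2.symm⟩
  rcases key with h | h
  · refine ⟨a.1, by omega, ?_, hR1 h⟩
    rw [← h]; simp
  · refine ⟨b.1, by omega, ?_, hR2 h⟩
    rw [← h]; simp

/-- a diametral site with a partner roughly above it is at an exposed edge -/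
theorem dia_down {l : List P} (hc : l.IsChain Adj) (hn : l.Nodup) {p q : P} (hp : p ∈ l)
    (hq : q ∈ l) (hd : D2 p q = dl l) (hdom : |p.1 - q.1| ≤ q.2 - p.2)
    (h1 : l.head? ≠ some p) (h2 : l.getLast? ≠ some p) :
    ∃ z ∈ Z 0 l ∪ Z 1 l, (p.1 = z ∨ p.1 = z + 1) ∧ p.2 = cm l p.1 := by
  have hb0 : 0 ≤ q.2 - p.2 := (abs_nonneg _).trans hdom
  have hlow : ∀ s ∈ l, s.1 = p.1 → p.2 ≤ s.2 := by
    intro s hs hsp
    by_contra hcon
    push Not at hcon
    have h3 := le_dl hs hq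
    rw [← hd] at h3
    unfold D2 at h3
    rw [hsp] at h3
    nlinarith
  obtain ⟨y, hy, hyl, hyR⟩ := hor_nb' hc hn hp hlow h1 h2 (cm l)
  have hylow : ∀ s ∈ l, s.1 = y → p.2 ≤ s.2 := by
    intro s hs hsp
    by_contra hcon
    push Not at hcon
    have h3 := le_dl hs hq
    rw [← hd] at h3
    unfold D2 at h3
    rw [hsp] at h3
    rw [abs_le] at hdom
    have e1 : (q.2 - p.2 + 1) ^ 2 ≤ (s.2 - q.2) ^ 2 := by
      have : 0 ≤ q.2 - p.2 + 1 := by omega
      nlinarith
    rcases hy with rfl | rfl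
    · nlinarith
    · nlinarith
  have e1 : cm l p.1 = p.2 := cm_eq hp hlow
  have e2 : cm l y = p.2 := cm_eq (p := (y, p.2)) hyl hylow
  have e3 : cm l (min p.1 y) = p.2 := by
    rcases min_choice p.1 y with h | h
    · rw [h, e1]
    · rw [h, e2]
  have e4 : cm l (min p.1 y + 1) = p.2 := by
    rcases hy with rfl | rfl
    · rw [min_eq_left (by omega), e2]
    · rw [min_eq_right (by omega), sub_add_cancel, e1]
  have htip : Tip l (min p.1 y) := by
    refine ⟨p.1, by omega, q, hq, ?_, ?_⟩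
    · rw [e3]; exact hd
    · rw [e3]; exact hdom
  refine ⟨min p.1 y, ?_, by omega, e1.symm⟩
  rcases Int.emod_two_eq_zero_or_one (min p.1 y) with h5 | h5
  · exact Finset.mem_union_left _ (Finset.mem_filter.2 ⟨hyR e3, h5, e4.trans e3.symm, htip⟩)
  · exact Finset.mem_union_right _ (Finset.mem_filter.2 ⟨hyR e3, h5, e4.trans e3.symm, htip⟩)

/-- the diametral sites with a partner roughly above them -/
noncomputable def Dn (l : List P) : Finset P :=
  l.toFinset.filter (fun p => ∃ q ∈ l, D2 p q = dl l ∧ |p.1 - q.1| ≤ q.2 - p.2)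

theorem card_Dn {l : List P} (hc : l.IsChain Adj) (hn : l.Nodup) :
    (Dn l).card ≤ 2 + 2 * ((Z 0 l).card + (Z 1 l).card) := by
  have h : Dn l ⊆ {l.headD 0, l.getLastD 0} ∪
      ((Z 0 l ∪ Z 1 l).image (fun z => (z, cm l z)) ∪
        (Z 0 l ∪ Z 1 l).image (fun z => (z + 1, cm l (z + 1)))) := by
    intro p hp
    unfold Dn at hp
    rw [Finset.mem_filter, List.mem_toFinset] at hp
    obtain ⟨hp, q, hq, hd, hdom⟩ := hp
    by_cases h1 : l.head? = some p
    · apply Finset.mem_union_left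
      rw [List.headD_eq_head?_getD, h1]
      simp
    by_cases h2 : l.getLast? = some p
    · apply Finset.mem_union_left
      rw [List.getLastD_eq_getLast?, h2]
      simp
    obtain ⟨z, hz, h3, h4⟩ := dia_down hc hn hp hq hd hdom h1 h2
    apply Finset.mem_union_right
    rcases h3 with h3 | h3
    · apply Finset.mem_union_left
      rw [Finset.mem_image]
      exact ⟨z, hz, Prod.ext h3.symm (by rw [h4, h3])⟩
    · apply Finset.mem_union_right
      rw [Finset.mem_image]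
      exact ⟨z, hz, Prod.ext h3.symm (by rw [h4, h3])⟩
  have h1 := Finset.card_le_card h
  have h2 := Finset.card_union_le ({l.headD 0, l.getLastD 0} : Finset P)
      ((Z 0 l ∪ Z 1 l).image (fun z => (z, cm l z)) ∪
        (Z 0 l ∪ Z 1 l).image (fun z => (z + 1, cm l (z + 1))))
  have h3 := Finset.card_union_le ((Z 0 l ∪ Z 1 l).image (fun z => (z, cm l z)))
    ((Z 0 l ∪ Z 1 l).image (fun z => (z + 1, cm l (z + 1))))
  have h4 := Finset.card_image_le (s := Z 0 l ∪ Z 1 l) (f := fun z => (z, cm l z))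
  have h5 := Finset.card_image_le (s := Z 0 l ∪ Z 1 l) (f := fun z => (z + 1, cm l (z + 1)))
  have h6 := Finset.card_union_le (Z 0 l) (Z 1 l)
  have h7 := Finset.card_le_two (a := l.headD 0) (b := l.getLastD 0)
  omega

/-- an involutive symmetry of the lattice -/
structure Sy (g : P → P) : Prop where
  inv : ∀ p, g (g p) = p
  zero : g 0 = 0
  dist : ∀ p q, D2 (g p) (g q) = D2 p q

theorem adj_D2 {p q : P} : Adj p q ↔ D2 p q = 1 := by
  unfold Adj D2
  constructor
  · intro h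
    have h1 : (|p.1 - q.1| = 0 ∧ |p.2 - q.2| = 1) ∨ (|p.1 - q.1| = 1 ∧ |p.2 - q.2| = 0) := by
      have := abs_nonneg (p.1 - q.1)
      have := abs_nonneg (p.2 - q.2)
      omega
    rw [← sq_abs (p.1 - q.1), ← sq_abs (p.2 - q.2)]
    rcases h1 with ⟨h2, h3⟩ | ⟨h2, h3⟩ <;> simp [h2, h3]
  · intro h
    rw [← sq_abs (p.1 - q.1), ← sq_abs (p.2 - q.2)] at h
    have h1 := abs_nonneg (p.1 - q.1)
    have h2 := abs_nonneg (p.2 - q.2)
    have h3 : |p.1 - q.1| ≤ 1 := by nlinarith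
    have h4 : |p.2 - q.2| ≤ 1 := by nlinarith
    have h5 : |p.1 - q.1| = 0 ∨ |p.1 - q.1| = 1 := by omega
    have h6 : |p.2 - q.2| = 0 ∨ |p.2 - q.2| = 1 := by omega
    rcases h5 with h5 | h5 <;> rcases h6 with h6 | h6 <;> rw [h5, h6] at h <;> omega

theorem Sy.inj {g : P → P} (hg : Sy g) : Function.Injective g :=
  Function.HasLeftInverse.injective ⟨g, hg.inv⟩

theorem Sy.mem_map {g : P → P} (hg : Sy g) {l : List P} {p : P} : p ∈ l.map g ↔ g p ∈ l := by
  rw [List.mem_map]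
  constructor
  · rintro ⟨q, hq, rfl⟩
    rw [hg.inv]
    exact hq
  · intro h
    exact ⟨_, h, hg.inv p⟩

theorem Sy.map_map {g : P → P} (hg : Sy g) (l : List P) : (l.map g).map g = l := by
  rw [List.map_map]
  conv_rhs => rw [← List.map_id l]
  congr 1
  funext p
  exact hg.inv p

theorem Sy.mem_SF {g : P → P} (hg : Sy g) {n : ℕ} {l : List P} (hl : l ∈ SF n) :
    l.map g ∈ SF n := by
  rw [Run7.h206.SV.mem_SF] at hl ⊢
  obtain ⟨h1, h2, h3, h4⟩ := hl
  refine ⟨by rw [List.length_map, h1], ?_, ?_, h4.map hg.inj⟩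
  · rw [List.head?_map, h2, Option.map_some, hg.zero]
  · rw [List.isChain_map]
    refine h3.imp (fun p q h => ?_)
    rw [adj_D2] at h ⊢
    rw [hg.dist, h]

theorem Sy.sum {g : P → P} (hg : Sy g) (n : ℕ) (F : List P → ℝ) :
    ∑ l ∈ SF n, F (l.map g) = ∑ l ∈ SF n, F l := by
  refine Finset.sum_nbij' (fun l => l.map g) (fun l => l.map g) (fun l hl => hg.mem_SF hl)
    (fun l hl => hg.mem_SF hl) (fun l _ => hg.map_map l) (fun l _ => hg.map_map l)
    (fun l _ => rfl)

theorem Sy.ds_eq {g : P → P} (hg : Sy g) (l : List P) : ds (l.map g) = ds l := by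
  ext d
  rw [mem_ds, mem_ds]
  constructor
  · rintro ⟨p, hp, q, hq, h⟩
    rw [hg.mem_map] at hp hq
    exact ⟨g p, hp, g q, hq, by rw [hg.dist, h]⟩
  · rintro ⟨p, hp, q, hq, h⟩
    refine ⟨g p, ?_, g q, ?_, by rw [hg.dist, h]⟩
    · rw [hg.mem_map, hg.inv]; exact hp
    · rw [hg.mem_map, hg.inv]; exact hq

theorem Sy.dl_eq {g : P → P} (hg : Sy g) (l : List P) : dl (l.map g) = dl l := by
  unfold dl
  simp only [hg.ds_eq]

/-- the diametral sites -/
noncomputable def Dm (l : List P) : Finset P :=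
  l.toFinset.filter (fun p => ∃ q ∈ l, D2 p q = dl l)

/-- the four symmetries -/
def sy : Fin 4 → P → P
  | 0 => fun p => p
  | 1 => fun p => (p.1, -p.2)
  | 2 => fun p => (p.2, p.1)
  | 3 => fun p => (-p.2, -p.1)

theorem sy_ok (i : Fin 4) : Sy (sy i) := by
  fin_cases i
  · exact ⟨fun p => rfl, rfl, fun p q => rfl⟩
  · refine ⟨fun p => ?_, ?_, fun p q => ?_⟩
    · simp [sy]
    · simp [sy]
    · simp only [sy, D2]; ring
  · refine ⟨fun p => rfl, rfl, fun p q => ?_⟩
    simp only [sy, D2]; ring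
  · refine ⟨fun p => ?_, ?_, fun p q => ?_⟩
    · simp [sy]
    · simp [sy]
    · simp only [sy, D2]; ring

theorem dom_cases (p q : P) : ∃ i : Fin 4, |(sy i p).1 - (sy i q).1| ≤ (sy i q).2 - (sy i p).2 := by
  rcases le_total |p.1 - q.1| |p.2 - q.2| with h | h
  · rcases le_total 0 (p.2 - q.2) with h1 | h1
    · refine ⟨1, ?_⟩
      rw [abs_of_nonneg h1] at h
      show |p.1 - q.1| ≤ -q.2 - -p.2
      linarith
    · refine ⟨0, ?_⟩
      rw [abs_of_nonpos h1] at h
      show |p.1 - q.1| ≤ q.2 - p.2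
      linarith
  · rcases le_total 0 (p.1 - q.1) with h1 | h1
    · refine ⟨3, ?_⟩
      rw [abs_of_nonneg h1] at h
      show |-p.2 - -q.2| ≤ -q.1 - -p.1
      rw [show -p.2 - -q.2 = -(p.2 - q.2) by ring, abs_neg]
      linarith
    · refine ⟨2, ?_⟩
      rw [abs_of_nonpos h1] at h
      show |p.2 - q.2| ≤ q.1 - p.1
      linarith

theorem card_Dm {n : ℕ} {l : List P} (hl : l ∈ SF n) :
    (Dm l).card ≤ 8 + 2 * ∑ i : Fin 4, ((Z 0 (l.map (sy i))).card + (Z 1 (l.map (sy i))).card) := by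
  have h : Dm l ⊆ Finset.univ.biUnion (fun i : Fin 4 => (Dn (l.map (sy i))).image (sy i)) := by
    intro p hp
    unfold Dm at hp
    rw [Finset.mem_filter, List.mem_toFinset] at hp
    obtain ⟨hp, q, hq, hd⟩ := hp
    obtain ⟨i, hi⟩ := dom_cases p q
    have hg := sy_ok i
    rw [Finset.mem_biUnion]
    refine ⟨i, Finset.mem_univ _, ?_⟩
    rw [Finset.mem_image]
    refine ⟨sy i p, ?_, hg.inv p⟩
    unfold Dn
    rw [Finset.mem_filter, List.mem_toFinset, hg.mem_map, hg.inv]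
    refine ⟨hp, sy i q, ?_, ?_, hi⟩
    · rw [hg.mem_map, hg.inv]; exact hq
    · rw [hg.dist, hg.dl_eq, hd]
  refine (Finset.card_le_card h).trans (Finset.card_biUnion_le.trans ?_)
  have h1 : ∀ i ∈ (Finset.univ : Finset (Fin 4)), ((Dn (l.map (sy i))).image (sy i)).card ≤
      2 + 2 * ((Z 0 (l.map (sy i))).card + (Z 1 (l.map (sy i))).card) := by
    intro i _
    have h2 := mem_SF.1 ((sy_ok i).mem_SF hl)
    exact Finset.card_image_le.trans (card_Dn h2.2.2.1 h2.2.2.2)
  refine (Finset.sum_le_sum h1).trans (le_of_eq ?_)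
  rw [Finset.sum_add_distrib, ← Finset.mul_sum]
  simp

theorem exp_Dm (n : ℕ) :
    ∑ l ∈ SF n, Real.exp (Real.log (33 / 32) / 16 * (Dm l).card) ≤ 33 * (SF n).card := by
  set b : ℝ := Real.log (33 / 32) with hb
  have hb0 : 0 < b := Real.log_pos (by norm_num)
  have heb : Real.exp b = 1 + 1 / 32 := by
    rw [hb, Real.exp_log (by norm_num)]
    norm_num
  have e1 : ∀ k : ℕ, Real.exp (b * k) = (1 + 1 / 32 : ℝ) ^ k := by
    intro k
    rw [mul_comm, Real.exp_nat_mul, heb]
  have key : ∀ l ∈ SF n, Real.exp (b / 16 * (Dm l).card) ≤ (33 / 32) *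
      ∑ i : Fin 4, ((1 + 1 / 32 : ℝ) ^ (Z 0 (l.map (sy i))).card +
        (1 + 1 / 32 : ℝ) ^ (Z 1 (l.map (sy i))).card) := by
    intro l hl
    set Y : ℝ := ∑ i : Fin 4, (((Z 0 (l.map (sy i))).card : ℝ) + (Z 1 (l.map (sy i))).card) with hY
    have h1 : ((Dm l).card : ℝ) ≤ 8 + 2 * Y := by
      have := card_Dm hl
      have h2 : (((Dm l).card : ℕ) : ℝ) ≤ ((8 + 2 * ∑ i : Fin 4,
        ((Z 0 (l.map (sy i))).card + (Z 1 (l.map (sy i))).card) : ℕ) : ℝ) := by
        exact_mod_cast this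
      refine h2.trans (le_of_eq ?_)
      rw [hY]
      push_cast
      ring
    have h2 : b / 16 * (Dm l).card ≤ b + b * (Y / 8) := by
      calc b / 16 * (Dm l).card ≤ b / 16 * (8 + 2 * Y) := by gcongr
        _ = b / 2 + b * (Y / 8) := by ring
        _ ≤ b + b * (Y / 8) := by linarith
    have h3 : ∃ i ∈ (Finset.univ : Finset (Fin 4)), Y / 8 ≤
        max ((Z 0 (l.map (sy i))).card : ℝ) ((Z 1 (l.map (sy i))).card : ℝ) := by
      refine Finset.exists_le_of_sum_le ⟨0, Finset.mem_univ _⟩ ?_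
      have e1 : ∑ _i : Fin 4, Y / 8 = Y / 2 := by
        rw [Finset.sum_const, Finset.card_univ, Fintype.card_fin, nsmul_eq_mul]
        push_cast
        ring
      rw [e1, hY, Finset.sum_div]
      refine Finset.sum_le_sum (fun i _ => ?_)
      have h4 := le_max_left ((Z 0 (l.map (sy i))).card : ℝ) ((Z 1 (l.map (sy i))).card : ℝ)
      have h5 := le_max_right ((Z 0 (l.map (sy i))).card : ℝ) ((Z 1 (l.map (sy i))).card : ℝ)
      linarith
    obtain ⟨i, -, h4⟩ := h3
    have h5 : Real.exp (b * (Y / 8)) ≤ (1 + 1 / 32 : ℝ) ^ (Z 0 (l.map (sy i))).card +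
        (1 + 1 / 32 : ℝ) ^ (Z 1 (l.map (sy i))).card := by
      rw [← e1, ← e1]
      rcases le_max_iff.1 h4 with h6 | h6
      · have h7 : Real.exp (b * (Y / 8)) ≤ Real.exp (b * ((Z 0 (l.map (sy i))).card : ℝ)) := by
          apply Real.exp_le_exp.2; gcongr
        have h8 := Real.exp_pos (b * ((Z 1 (l.map (sy i))).card : ℝ))
        linarith
      · have h7 : Real.exp (b * (Y / 8)) ≤ Real.exp (b * ((Z 1 (l.map (sy i))).card : ℝ)) := by
          apply Real.exp_le_exp.2; gcongr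
        have h8 := Real.exp_pos (b * ((Z 0 (l.map (sy i))).card : ℝ))
        linarith
    calc Real.exp (b / 16 * (Dm l).card) ≤ Real.exp (b + b * (Y / 8)) := Real.exp_le_exp.2 h2
      _ = (33 / 32) * Real.exp (b * (Y / 8)) := by rw [Real.exp_add, heb]; norm_num
      _ ≤ (33 / 32) * ((1 + 1 / 32 : ℝ) ^ (Z 0 (l.map (sy i))).card +
          (1 + 1 / 32 : ℝ) ^ (Z 1 (l.map (sy i))).card) := by gcongr
      _ ≤ _ := by
          gcongr
          exact Finset.single_le_sum (f := fun i => (1 + 1 / 32 : ℝ) ^ (Z 0 (l.map (sy i))).card +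
            (1 + 1 / 32 : ℝ) ^ (Z 1 (l.map (sy i))).card) (fun _ _ => by positivity)
            (Finset.mem_univ i)
  refine (Finset.sum_le_sum key).trans ?_
  rw [← Finset.mul_sum, Finset.sum_comm]
  have h6 : ∀ i ∈ (Finset.univ : Finset (Fin 4)),
      ∑ l ∈ SF n, ((1 + 1 / 32 : ℝ) ^ (Z 0 (l.map (sy i))).card +
        (1 + 1 / 32 : ℝ) ^ (Z 1 (l.map (sy i))).card) ≤ 4 * ((SF n).card : ℝ) := by
    intro i _
    rw [Finset.sum_add_distrib,
      (sy_ok i).sum n (fun l => (1 + 1 / 32 : ℝ) ^ (Z 0 l).card),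
      (sy_ok i).sum n (fun l => (1 + 1 / 32 : ℝ) ^ (Z 1 l).card)]
    linarith [exp_Z 0 n, exp_Z 1 n]
  have h7 := Finset.sum_le_sum h6
  rw [Finset.sum_const, Finset.card_univ, Fintype.card_fin, nsmul_eq_mul] at h7
  push_cast at h7
  have h8 : (0 : ℝ) ≤ (SF n).card := by positivity
  linarith

end Run7.h206.SV
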