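import Pool.Agent.Run7.h206.SV.Full

/-! # Bumps below exposed edges of variable height -/

set_option autoImplicit false

namespace Run7.h206.SV

open scoped Classical

/-- horizontal edge at the height prescribed by `f`, selected by `S` -/
def Sl (S : Finset ℤ) (f : ℤ → ℤ) (a b : P) : Prop :=
  a.2 = f (min a.1 b.1) ∧ b.2 = f (min a.1 b.1) ∧ min a.1 b.1 ∈ S

/-- the walk with bumps -/
noncomputable def bmp (S : Finset ℤ) (f : ℤ → ℤ) : List P → List P
  | [] => []
  | [a] => [a]
  | a :: b :: l => a :: ((if Sl S f a b then [a - (0, 1), b - (0, 1)] else []) ++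
      bmp S f (b :: l))

/-- the left ends of the horizontal edges at the height prescribed by `f` -/
noncomputable def RF (f : ℤ → ℤ) : List P → Finset ℤ
  | [] => ∅
  | [_] => ∅
  | a :: b :: l => if a.2 = f (min a.1 b.1) ∧ b.2 = f (min a.1 b.1) then
      insert (min a.1 b.1) (RF f (b :: l)) else RF f (b :: l)

theorem adj_hor' {a b : P} (h : Adj a b) (hab : a.2 = b.2) :
    (a.1 = min a.1 b.1 ∧ b.1 = min a.1 b.1 + 1) ∨ (b.1 = min a.1 b.1 ∧ a.1 = min a.1 b.1 + 1) := by
  unfold Adj at h
  rw [hab, sub_self, abs_zero, add_zero] at h
  rcases abs_eq (by norm_num : (0 : ℤ) ≤ 1) |>.1 h with h | h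
  · right; omega
  · left; omega

theorem mem_RF {f : ℤ → ℤ} {l : List P} (hc : l.IsChain Adj) {x : ℤ} (hx : x ∈ RF f l) :
    (x, f x) ∈ l ∧ (x + 1, f x) ∈ l := by
  induction l with
  | nil => simp [RF] at hx
  | cons a l ih =>
    cases l with
    | nil => simp [RF] at hx
    | cons b l =>
      rw [List.isChain_cons_cons] at hc
      rw [RF] at hx
      split_ifs at hx with h
      · rw [Finset.mem_insert] at hx
        rcases hx with rfl | hx
        · rcases adj_hor' hc.1 (h.1.trans h.2.symm) with ⟨h1, h2⟩ | ⟨h1, h2⟩
          · constructor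
            · rw [← h.1]
              nth_rw 1 [← h1]
              exact List.mem_cons_self
            · rw [← h.2]
              nth_rw 1 [← h2]
              exact List.mem_cons_of_mem _ List.mem_cons_self
          · constructor
            · rw [← h.2]
              nth_rw 1 [← h1]
              exact List.mem_cons_of_mem _ List.mem_cons_self
            · rw [← h.1]
              nth_rw 1 [← h2]
              exact List.mem_cons_self
        · exact ⟨List.mem_cons_of_mem _ (ih hc.2 hx).1, List.mem_cons_of_mem _ (ih hc.2 hx).2⟩
      · exact ⟨List.mem_cons_of_mem _ (ih hc.2 hx).1, List.mem_cons_of_mem _ (ih hc.2 hx).2⟩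

theorem not_mem_RF {f : ℤ → ℤ} {a b : P} {l : List P} (hc : (a :: b :: l).IsChain Adj)
    (hn : (a :: b :: l).Nodup) (ha : a.2 = f (min a.1 b.1)) (hb : b.2 = f (min a.1 b.1)) :
    min a.1 b.1 ∉ RF f (b :: l) := by
  intro h
  rw [List.isChain_cons_cons] at hc
  obtain ⟨h1, h2⟩ := mem_RF hc.2 h
  rw [List.nodup_cons] at hn
  rcases adj_hor' hc.1 (ha.trans hb.symm) with ⟨h3, h4⟩ | ⟨h3, h4⟩
  · rw [← ha] at h1
    rw [← h3] at h1
    exact hn.1 h1
  · rw [← ha] at h2
    rw [← h4] at h2
    exact hn.1 h2

theorem head_bmp {S : Finset ℤ} {f : ℤ → ℤ} (l : List P) : (bmp S f l).head? = l.head? := by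
  cases l with
  | nil => rfl
  | cons a l =>
    cases l with
    | nil => rfl
    | cons b l => rfl

theorem mem_bmp {S : Finset ℤ} {f : ℤ → ℤ} {l : List P} (hc : l.IsChain Adj) {p : P} :
    p ∈ bmp S f l ↔ p ∈ l ∨ ∃ x ∈ S, x ∈ RF f l ∧ (p.1 = x ∨ p.1 = x + 1) ∧ p.2 = f x - 1 := by
  induction l with
  | nil => simp [bmp, RF]
  | cons a l ih =>
    cases l with
    | nil => simp [bmp, RF]
    | cons b l =>
      rw [List.isChain_cons_cons] at hc
      rw [bmp, List.mem_cons, List.mem_append, ih hc.2, List.mem_cons (a := p) (b := a)]
      by_cases h : a.2 = f (min a.1 b.1) ∧ b.2 = f (min a.1 b.1)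
      · have hR : RF f (a :: b :: l) = insert (min a.1 b.1) (RF f (b :: l)) := by
          rw [RF, if_pos h]
        rw [hR]
        have h5 := adj_hor' hc.1 (h.1.trans h.2.symm)
        by_cases hS : min a.1 b.1 ∈ S
        · rw [if_pos ⟨h.1, h.2, hS⟩]
          have h6 : p ∈ [a - (0, 1), b - (0, 1)] ↔ (p.1 = min a.1 b.1 ∨ p.1 = min a.1 b.1 + 1) ∧
              p.2 = f (min a.1 b.1) - 1 := by
            simp only [List.mem_cons, List.not_mem_nil, or_false, Prod.ext_iff, Prod.fst_sub,
              Prod.snd_sub, sub_zero, h.1, h.2]
            omega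
          rw [h6]
          constructor
          · rintro (h1 | h2 | h1 | ⟨x, h1, h2, h3, h4⟩)
            · exact Or.inl (Or.inl h1)
            · exact Or.inr ⟨_, hS, Finset.mem_insert_self _ _, h2⟩
            · exact Or.inl (Or.inr h1)
            · exact Or.inr ⟨x, h1, Finset.mem_insert_of_mem h2, h3, h4⟩
          · rintro ((h1 | h1) | ⟨x, h1, h2, h3, h4⟩)
            · exact Or.inl h1
            · exact Or.inr (Or.inr (Or.inl h1))
            · rcases Finset.mem_insert.1 h2 with rfl | h2
              · exact Or.inr (Or.inl ⟨h3, h4⟩)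
              · exact Or.inr (Or.inr (Or.inr ⟨x, h1, h2, h3, h4⟩))
        · rw [if_neg (fun h7 => hS h7.2.2)]
          simp only [List.not_mem_nil, false_or]
          constructor
          · rintro (h1 | h1 | ⟨x, h1, h2, h3, h4⟩)
            · exact Or.inl (Or.inl h1)
            · exact Or.inl (Or.inr h1)
            · exact Or.inr ⟨x, h1, Finset.mem_insert_of_mem h2, h3, h4⟩
          · rintro ((h1 | h1) | ⟨x, h1, h2, h3, h4⟩)
            · exact Or.inl h1
            · exact Or.inr (Or.inl h1)
            · rcases Finset.mem_insert.1 h2 with rfl | h2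
              · exact absurd h1 hS
              · exact Or.inr (Or.inr ⟨x, h1, h2, h3, h4⟩)
      · have hR : RF f (a :: b :: l) = RF f (b :: l) := by
          rw [RF, if_neg h]
        rw [hR, if_neg (fun h7 => h ⟨h7.1, h7.2.1⟩)]
        simp only [List.not_mem_nil, false_or]
        exact or_assoc.symm

theorem chain_bmp {S : Finset ℤ} {f : ℤ → ℤ} {l : List P} (hc : l.IsChain Adj) :
    (bmp S f l).IsChain Adj := by
  induction l with
  | nil => simp [bmp]
  | cons a l ih =>
    cases l with
    | nil => simp [bmp]
    | cons b l =>
      rw [List.isChain_cons_cons] at hc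
      have h1 := ih hc.2
      have hh : (bmp S f (b :: l)).head? = some b := by rw [head_bmp]; rfl
      obtain ⟨m, hm⟩ : ∃ m, bmp S f (b :: l) = b :: m := by
        cases hb : bmp S f (b :: l) with
        | nil => rw [hb] at hh; simp at hh
        | cons c m =>
          rw [hb] at hh
          simp only [List.head?_cons, Option.some.injEq] at hh
          exact ⟨m, by rw [hh]⟩
      rw [hm] at h1
      rw [bmp, hm]
      split_ifs with h
      · rw [List.cons_append, List.cons_append, List.nil_append, List.isChain_cons_cons,
          List.isChain_cons_cons, List.isChain_cons_cons]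
        refine ⟨?_, ?_, ?_, h1⟩
        · simp [Adj]
        · have := hc.1
          unfold Adj at this ⊢
          simpa using this
        · simp [Adj]
      · rw [List.nil_append, List.isChain_cons_cons]
        exact ⟨hc.1, h1⟩

theorem length_bmp {S : Finset ℤ} {f : ℤ → ℤ} {l : List P} (hc : l.IsChain Adj) (hn : l.Nodup) :
    (bmp S f l).length = l.length + 2 * (S ∩ RF f l).card := by
  induction l with
  | nil => simp [bmp, RF]
  | cons a l ih =>
    cases l with
    | nil => simp [bmp, RF]
    | cons b l =>
      have hc' := hc
      have hn' := hn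
      rw [List.isChain_cons_cons] at hc
      rw [List.nodup_cons] at hn
      have h1 := ih hc.2 hn.2
      rw [bmp, List.length_cons, List.length_append, h1]
      by_cases h : a.2 = f (min a.1 b.1) ∧ b.2 = f (min a.1 b.1)
      · have hR : RF f (a :: b :: l) = insert (min a.1 b.1) (RF f (b :: l)) := by
          rw [RF, if_pos h]
        have h2 := not_mem_RF hc' hn' h.1 h.2
        rw [hR]
        by_cases h4 : min a.1 b.1 ∈ S
        · rw [if_pos ⟨h.1, h.2, h4⟩, Finset.inter_insert_of_mem h4, Finset.card_insert_of_notMem
              (fun h4 => h2 (Finset.mem_inter.1 h4).2)]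
          simp only [List.length_cons, List.length_nil]
          ring
        · rw [if_neg (fun h5 => h4 h5.2.2), Finset.inter_insert_of_notMem h4]
          simp only [List.length_cons, List.length_nil]
          ring
      · have hR : RF f (a :: b :: l) = RF f (b :: l) := by
          rw [RF, if_neg h]
        rw [hR, if_neg (fun h5 => h ⟨h5.1, h5.2.1⟩)]
        simp only [List.length_cons, List.length_nil]
        ring

/-- below the selected edges -/
def Rg (S : Finset ℤ) (f : ℤ → ℤ) (p : P) : Prop := ∃ x ∈ S, (p.1 = x ∨ p.1 = x + 1) ∧ p.2 < f x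

theorem filter_bmp {S : Finset ℤ} {f : ℤ → ℤ} {l : List P} (hc : l.IsChain Adj)
    (hl : ∀ p ∈ l, ¬ Rg S f p) : (bmp S f l).filter (fun p => ¬ Rg S f p) = l := by
  induction l with
  | nil => simp [bmp]
  | cons a l ih =>
    cases l with
    | nil =>
      rw [bmp, List.filter_cons_of_pos (by simpa using hl a List.mem_cons_self)]
      simp
    | cons b l =>
      rw [List.isChain_cons_cons] at hc
      have h1 := ih hc.2 (fun p hp => hl p (List.mem_cons_of_mem _ hp))
      rw [bmp, List.filter_cons_of_pos (by simpa using hl a List.mem_cons_self),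
        List.filter_append, h1]
      split_ifs with h
      · have h2 : [a - (0, 1), b - (0, 1)].filter (fun p => ¬ Rg S f p) = [] := by
          rw [List.filter_eq_nil_iff]
          intro p hp
          simp only [List.mem_cons, List.not_mem_nil, or_false] at hp
          obtain ⟨ha, hb, h3⟩ := h
          have h7 := adj_hor' hc.1 (ha.trans hb.symm)
          have : Rg S f p := by
            refine ⟨_, h3, ?_, ?_⟩
            · rcases hp with rfl | rfl
              · simp only [Prod.fst_sub, sub_zero]; omega
              · simp only [Prod.fst_sub, sub_zero]; omega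
            · rcases hp with rfl | rfl
              · simp only [Prod.snd_sub]; omega
              · simp only [Prod.snd_sub]; omega
          simpa using this
        rw [h2, List.nil_append]
      · simp

theorem nodup_bmp {S : Finset ℤ} {f : ℤ → ℤ} {l : List P} {c : ℤ} (hc : l.IsChain Adj)
    (hn : l.Nodup) (hS : ∀ x ∈ S, x % 2 = c) (hl : ∀ p ∈ l, ¬ Rg S f p) :
    (bmp S f l).Nodup := by
  induction l with
  | nil => simp [bmp]
  | cons a l ih =>
    cases l with
    | nil => simp [bmp]
    | cons b l =>
      have hc' := hc
      have hn' := hn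
      rw [List.isChain_cons_cons] at hc
      rw [List.nodup_cons] at hn
      have h1 := ih hc.2 hn.2 (fun p hp => hl p (List.mem_cons_of_mem _ hp))
      rw [bmp, List.nodup_cons, List.nodup_append]
      have hareg := hl a List.mem_cons_self
      refine ⟨?_, ?_, h1, ?_⟩
      · rw [List.mem_append, not_or]
        constructor
        · split_ifs with h
          · simp only [List.mem_cons, List.not_mem_nil, or_false, not_or, Prod.ext_iff,
              Prod.fst_sub, Prod.snd_sub]
            have := h.1
            have := h.2.1
            omega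
          · simp
        · intro h
          rw [mem_bmp hc.2] at h
          rcases h with h | ⟨x, h2, h3, h4, h5⟩
          · exact hn.1 h
          · exact hareg ⟨x, h2, h4, by omega⟩
      · split_ifs with h
        · have h7 := adj_hor' hc.1 (h.1.trans h.2.1.symm)
          have h8 : a - (0, 1) ≠ b - (0, 1) := by
            intro h9
            have := sub_left_injective h9
            rw [this] at h7
            omega
          simp [h8]
        · exact List.nodup_nil
      · intro p hp q hq hpq
        subst hpq
        split_ifs at hp with h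
        · obtain ⟨ha, hb, h3⟩ := h
          have h7 := adj_hor' hc.1 (ha.trans hb.symm)
          have h8 := not_mem_RF hc' hn' ha hb
          simp only [List.mem_cons, List.not_mem_nil, or_false, Prod.ext_iff, Prod.fst_sub,
              Prod.snd_sub] at hp
          rw [mem_bmp hc.2] at hq
          rcases hq with hq | ⟨x, h9, h10, h11, h12⟩
          · exact hl p (List.mem_cons_of_mem _ hq) ⟨_, h3, by omega, by omega⟩
          · have e1 := hS _ h3
            have e2 := hS x h9
            have : x = min a.1 b.1 := by omega
            rw [this] at h10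
            exact h8 h10
        · simp at hp

end Run7.h206.SV
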