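import Pool.Agent.Run7.h206.SV.Count

/-! # Columns of a half-plane walk which come close to the boundary -/

set_option autoImplicit false

namespace Run7.h206.SV

open scoped Classical

theorem mem_R_of {k : ℕ} {a b : P} (s t : List P) (ha : a.2 = k) (hb : b.2 = k) :
    min a.1 b.1 ∈ R k (s ++ a :: b :: t) := by
  induction s with
  | nil =>
    rw [List.nil_append, R, if_pos ⟨ha, hb⟩]
    exact Finset.mem_insert_self _ _
  | cons c s ih =>
    cases s with
    | nil =>
      rw [List.nil_append] at ih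
      rw [List.cons_append, List.nil_append, R]
      split_ifs
      · exact Finset.mem_insert_of_mem ih
      · exact ih
    | cons d s =>
      rw [List.cons_append] at ih
      rw [List.cons_append, List.cons_append, R]
      split_ifs
      · exact Finset.mem_insert_of_mem ih
      · exact ih

/-- the edge between `(z, k)` and `(z + 1, k)` is in the walk, and there is nothing below it -/
def Ex (k : ℕ) (l : List P) (z : ℤ) : Prop :=
  z ∈ R k l ∧ ∀ p ∈ l, (p.1 = z ∨ p.1 = z + 1) → (k : ℤ) ≤ p.2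

/-- the column `x` is a good column at height `m` -/
def Gd (l : List P) (x : ℤ) (m : ℕ) : Prop :=
  l.head? = some (x, (m : ℤ)) ∨ l.getLast? = some (x, (m : ℤ)) ∨
    ∃ z, (x = z ∨ x = z + 1) ∧ Ex m l z

theorem hor_nb {l : List P} (hc : l.IsChain Adj) (hn : l.Nodup) {x : ℤ} {m : ℕ}
    (hx : (x, (m : ℤ)) ∈ l) (hlow : ∀ p ∈ l, p.1 = x → (m : ℤ) ≤ p.2)
    (h1 : l.head? ≠ some (x, (m : ℤ))) (h2 : l.getLast? ≠ some (x, (m : ℤ))) :
    ∃ y z : ℤ, (y, (m : ℤ)) ∈ l ∧ z ∈ R m l ∧ ((z = x ∧ y = x + 1) ∨ (z = y ∧ y = x - 1)) := by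
  obtain ⟨s, t, rfl⟩ := List.append_of_mem hx
  have hs : s ≠ [] := by
    rintro rfl
    exact h1 rfl
  have ht : t ≠ [] := by
    rintro rfl
    exact h2 (by simp)
  obtain ⟨s', a, rfl⟩ : ∃ s' a, s = s' ++ [a] := ⟨_, _, (List.dropLast_append_getLast hs).symm⟩
  obtain ⟨b, t', rfl⟩ := List.exists_cons_of_ne_nil ht
  rw [List.append_assoc, List.cons_append, List.nil_append] at hc hn hlow ⊢
  have hc1 := (List.isChain_append.1 hc).2.1
  rw [List.isChain_cons_cons, List.isChain_cons_cons] at hc1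
  have hn1 := (List.nodup_append.1 hn).2.1
  have hab : a ≠ b := by
    rintro rfl
    rw [List.nodup_cons] at hn1
    exact hn1.1 (by simp)
  have ha := hc1.1
  have hb := hc1.2.1
  rw [adj_iff] at ha hb
  have ha' := hlow a (by simp)
  have hb' := hlow b (by simp)
  simp only [steps, Finset.mem_insert, Finset.mem_singleton, Prod.ext_iff, Prod.fst_sub,
    Prod.snd_sub] at ha hb
  have hR1 : a.2 = m → min a.1 x ∈ R m (s' ++ a :: (x, (m : ℤ)) :: b :: t') := fun h =>
    mem_R_of (k := m) (a := a) (b := (x, (m : ℤ))) s' (b :: t') h rfl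
  have hR2 : b.2 = m → min x b.1 ∈ R m (s' ++ a :: (x, (m : ℤ)) :: b :: t') := fun h => by
    have := mem_R_of (k := m) (a := (x, (m : ℤ))) (b := b) (s' ++ [a]) t' rfl h
    rwa [List.append_assoc, List.cons_append, List.nil_append] at this
  have key : a.2 = m ∨ b.2 = m := by
    by_contra hcon
    rw [not_or] at hcon
    apply hab
    rw [Prod.ext_iff]
    have h5 : a.1 = x ∧ a.2 = m + 1 := by omega
    have h6 : b.1 = x ∧ b.2 = m + 1 := by omega
    exact ⟨h5.1.trans h6.1.symm, h5.2.trans h6.2.symm⟩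
  rcases key with h | h
  · have h7 := hR1 h
    refine ⟨a.1, min a.1 x, ?_, h7, ?_⟩
    · rw [← h]; simp
    · omega
  · have h7 := hR2 h
    refine ⟨b.1, min x b.1, ?_, h7, ?_⟩
    · rw [← h]; simp
    · omega

theorem column {l : List P} (hc : l.IsChain Adj) (hn : l.Nodup) (h0 : ∀ p ∈ l, 0 ≤ p.2)
    (m : ℕ) : ∀ x : ℤ, (x, (m : ℤ)) ∈ l → (∀ p ∈ l, p.1 = x → (m : ℤ) ≤ p.2) →
    ∃ (x' : ℤ) (m' : ℕ), |x - x'| ≤ m ∧ m' ≤ m ∧ Gd l x' m' := by
  induction m using Nat.strong_induction_on with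
  | _ m ih =>
    intro x hx hlow
    by_cases h1 : l.head? = some (x, (m : ℤ))
    · exact ⟨x, m, by simp, le_rfl, Or.inl h1⟩
    by_cases h2 : l.getLast? = some (x, (m : ℤ))
    · exact ⟨x, m, by simp, le_rfl, Or.inr (Or.inl h2)⟩
    obtain ⟨y, z, hy, hz, hxyz⟩ := hor_nb hc hn hx hlow h1 h2
    by_cases h3 : ∀ p ∈ l, p.1 = y → (m : ℤ) ≤ p.2
    · refine ⟨x, m, by simp, le_rfl, Or.inr (Or.inr ⟨z, by omega, hz, ?_⟩)⟩
      intro p hp hpz
      by_cases h4 : p.1 = x
      · exact hlow p hp h4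
      · exact h3 p hp (by omega)
    · push Not at h3
      obtain ⟨p, hp, hpy, hpm⟩ := h3
      have hex : ∃ j : ℕ, (y, (j : ℤ)) ∈ l := by
        refine ⟨p.2.toNat, ?_⟩
        rw [Int.toNat_of_nonneg (h0 p hp), ← hpy]
        exact hp
      have hfl : Nat.find hex < m := by
        have h5 : Nat.find hex ≤ p.2.toNat := Nat.find_min' hex (by
          rw [Int.toNat_of_nonneg (h0 p hp), ← hpy]
          exact hp)
        have := h0 p hp
        omega
      obtain ⟨x', m', h6, h7, h8⟩ := ih _ hfl y (Nat.find_spec hex) (by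
        intro q hq hqy
        have h9 : Nat.find hex ≤ q.2.toNat := Nat.find_min' hex (by
          rw [Int.toNat_of_nonneg (h0 q hq), ← hqy]
          exact hq)
        have := h0 q hq
        omega)
      refine ⟨x', m', ?_, by omega, h8⟩
      rw [abs_le] at h6 ⊢
      omega

/-- the number of sites in the strip `0 ≤ y ≤ h` -/
def visits (h : ℕ) (l : List P) : ℕ := l.countP (fun p => decide (p.2 ≤ (h : ℤ)))

/-- a finite set of columns -/
noncomputable def G (h : ℕ) (l : List P) : Finset ℤ :=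
  {0, 1, -1, (l.getLastD 0).1} ∪ (Finset.range (h + 1)).biUnion (fun m =>
    ((X 0 m l ∪ X 1 m l) ∪ (X 0 m l ∪ X 1 m l).image (fun z => z + 1)))

theorem gd_mem {n h : ℕ} {l : List P} (hl : l ∈ Wk Up n (0, 0)) {x : ℤ} {m : ℕ} (hm : m ≤ h)
    (hg : Gd l x m) : x ∈ G h l := by
  unfold G
  rcases hg with hg | hg | ⟨z, hz, hzR, hzl⟩
  · rw [hl.2.1] at hg
    simp only [Option.some.injEq, Prod.ext_iff] at hg
    simp [← hg.1]
  · rw [List.getLastD_eq_getLast?, hg]
    simp
  · by_cases h0 : z = 0 ∨ z = -1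
    · have : x = 0 ∨ x = 1 ∨ x = -1 := by omega
      apply Finset.mem_union_left
      simp only [Finset.mem_insert, Finset.mem_singleton]
      tauto
    · rw [not_or] at h0
      have hX : z ∈ X 0 m l ∪ X 1 m l := by
        rcases Int.emod_two_eq_zero_or_one z with h1 | h1
        · exact Finset.mem_union_left _ (Finset.mem_filter.2 ⟨hzR, h1, h0.1, h0.2, hzl⟩)
        · exact Finset.mem_union_right _ (Finset.mem_filter.2 ⟨hzR, h1, h0.1, h0.2, hzl⟩)
      apply Finset.mem_union_right
      rw [Finset.mem_biUnion]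
      refine ⟨m, Finset.mem_range.2 (by omega), ?_⟩
      rcases hz with rfl | rfl
      · exact Finset.mem_union_left _ hX
      · exact Finset.mem_union_right _ (Finset.mem_image_of_mem _ hX)

theorem card_G (h : ℕ) (l : List P) : (G h l).card ≤
    4 + 2 * ∑ m ∈ Finset.range (h + 1), ((X 0 m l).card + (X 1 m l).card) := by
  unfold G
  refine (Finset.card_union_le _ _).trans (Nat.add_le_add Finset.card_le_four ?_)
  refine Finset.card_biUnion_le.trans ?_
  rw [Finset.mul_sum]
  refine Finset.sum_le_sum (fun m _ => ?_)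
  refine (Finset.card_union_le _ _).trans ?_
  have h1 := Finset.card_union_le (X 0 m l) (X 1 m l)
  have h2 := Finset.card_image_le (s := X 0 m l ∪ X 1 m l) (f := fun z => z + 1)
  omega

theorem visits_le {n : ℕ} (h : ℕ) {l : List P} (hl : l ∈ Wk Up n (0, 0)) :
    visits h l ≤ (2 * h + 1) * (h + 1) *
      (4 + 2 * ∑ m ∈ Finset.range (h + 1), ((X 0 m l).card + (X 1 m l).card)) := by
  have h0 : ∀ p ∈ l, 0 ≤ p.2 := fun p hp => hl.2.2.2.2 p hp
  have h1 : visits h l = (l.toFinset.filter (fun p => p.2 ≤ (h : ℤ))).card := by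
    unfold visits
    rw [List.countP_eq_length_filter, ← List.toFinset_card_of_nodup (hl.2.2.2.1.filter _),
      List.toFinset_filter]
    congr 1
    ext p
    simp
  have h2 : (l.toFinset.filter (fun p => p.2 ≤ (h : ℤ))) ⊆
      ((G h l ×ˢ Finset.Icc (-(h : ℤ)) h) ×ˢ Finset.Icc (0 : ℤ) h).image
        (fun q => (q.1.1 + q.1.2, q.2)) := by
    intro p hp
    rw [Finset.mem_filter, List.mem_toFinset] at hp
    obtain ⟨hp, hph⟩ := hp
    have hex : ∃ j : ℕ, (p.1, (j : ℤ)) ∈ l := ⟨p.2.toNat, by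
      rw [Int.toNat_of_nonneg (h0 p hp)]; exact hp⟩
    have hf : Nat.find hex ≤ p.2.toNat := Nat.find_min' hex (by
      rw [Int.toNat_of_nonneg (h0 p hp)]; exact hp)
    have hp0 := h0 p hp
    obtain ⟨x', m', h6, h7, h8⟩ := column hl.2.2.1 hl.2.2.2.1 h0 (Nat.find hex) p.1
      (Nat.find_spec hex) (by
        intro q hq hqy
        have h9 : Nat.find hex ≤ q.2.toNat := Nat.find_min' hex (by
          rw [Int.toNat_of_nonneg (h0 q hq), ← hqy]
          exact hq)
        have := h0 q hq
        omega)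
    have h10 := gd_mem (h := h) hl (by omega) h8
    rw [Finset.mem_image]
    refine ⟨((x', p.1 - x'), p.2), ?_, by simp⟩
    rw [Finset.mem_product, Finset.mem_product, Finset.mem_Icc, Finset.mem_Icc]
    rw [abs_le] at h6
    refine ⟨⟨h10, ?_, ?_⟩, ?_, ?_⟩
    · show -(h : ℤ) ≤ p.1 - x'
      omega
    · show p.1 - x' ≤ h
      omega
    · exact hp0
    · exact hph
  rw [h1]
  refine (Finset.card_le_card h2).trans (Finset.card_image_le.trans ?_)
  rw [Finset.card_product, Finset.card_product, Int.card_Icc, Int.card_Icc]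
  have h3 := card_G h l
  have e1 : ((h : ℤ) + 1 - -(h : ℤ)).toNat = 2 * h + 1 := by omega
  have e2 : ((h : ℤ) + 1 - 0).toNat = h + 1 := by omega
  rw [e1, e2]
  calc (G h l).card * (2 * h + 1) * (h + 1) = (2 * h + 1) * (h + 1) * (G h l).card := by ring
    _ ≤ _ := Nat.mul_le_mul_left _ h3

/-- the exponential moment -/
theorem visits_exp (h : ℕ) : ∃ α C : ℝ, 0 < α ∧ 0 < C ∧ ∀ n : ℕ,
    ∑ l ∈ HF n, Real.exp (α * visits h l) ≤ C * (HF n).card := by
  set t : ℝ := 1 / (2 * (16 : ℝ) ^ (h + 1)) with ht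
  have ht0 : 0 < t := by positivity
  have ht1 : t ≤ 1 := by
    rw [ht, div_le_one (by positivity)]
    have : (1 : ℝ) ≤ 16 ^ (h + 1) := one_le_pow₀ (by norm_num)
    linarith
  set m : ℝ := 2 * ((h : ℝ) + 1) with hm
  have hm2 : 2 ≤ m := by
    rw [hm]
    have : (0 : ℝ) ≤ h := by positivity
    linarith
  set A : ℝ := (2 * (h : ℝ) + 1) * ((h : ℝ) + 1) with hA
  have hA0 : 0 < A := by positivity
  set b : ℝ := Real.log (1 + t) with hb
  have hb0 : 0 < b := Real.log_pos (by linarith)
  have heb : Real.exp b = 1 + t := Real.exp_log (by linarith)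
  refine ⟨b / (2 * A * m), 2 * (8 * m), by positivity, by positivity, fun n => ?_⟩
  have key : ∀ l ∈ HF n, Real.exp (b / (2 * A * m) * visits h l) ≤
      2 * ∑ j ∈ Finset.range (h + 1), ((1 + t) ^ (X 0 j l).card + (1 + t) ^ (X 1 j l).card) := by
    intro l hl
    rw [mem_HF] at hl
    set Y : ℝ := ∑ j ∈ Finset.range (h + 1), (((X 0 j l).card : ℝ) + (X 1 j l).card) with hY
    have h1 : (visits h l : ℝ) ≤ A * (4 + 2 * Y) := by
      have := visits_le h hl
      have h2 : ((visits h l : ℕ) : ℝ) ≤ (((2 * h + 1) * (h + 1) *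
        (4 + 2 * ∑ m ∈ Finset.range (h + 1), ((X 0 m l).card + (X 1 m l).card)) : ℕ) : ℝ) := by
        exact_mod_cast this
      refine h2.trans (le_of_eq ?_)
      rw [hA, hY]
      push_cast
      ring
    have h2 : b / (2 * A * m) * visits h l ≤ b + b * (Y / m) := by
      calc b / (2 * A * m) * visits h l ≤ b / (2 * A * m) * (A * (4 + 2 * Y)) := by gcongr
        _ = b * (2 / m) + b * (Y / m) := by
          field_simp
          ring
        _ ≤ b + b * (Y / m) := by
          have : 2 / m ≤ 1 := by rw [div_le_one (by linarith)]; exact hm2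
          nlinarith
    have h3 : ∃ j ∈ Finset.range (h + 1), Y / m ≤ max ((X 0 j l).card : ℝ) ((X 1 j l).card : ℝ) := by
      refine Finset.exists_le_of_sum_le (s := Finset.range (h + 1)) ⟨0, by simp⟩ ?_
      have e1 : ∑ _j ∈ Finset.range (h + 1), Y / m = Y / 2 := by
        rw [Finset.sum_const, Finset.card_range, nsmul_eq_mul, hm]
        push_cast
        field_simp
      rw [e1, hY, Finset.sum_div]
      refine Finset.sum_le_sum (fun j _ => ?_)
      have h4 := le_max_left ((X 0 j l).card : ℝ) ((X 1 j l).card : ℝ)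
      have h5 := le_max_right ((X 0 j l).card : ℝ) ((X 1 j l).card : ℝ)
      linarith
    obtain ⟨j, hj, h4⟩ := h3
    have h5 : Real.exp (b * (Y / m)) ≤ (1 + t) ^ (X 0 j l).card + (1 + t) ^ (X 1 j l).card := by
      have e1 : ∀ k : ℕ, Real.exp (b * k) = (1 + t) ^ k := by
        intro k
        rw [mul_comm, Real.exp_nat_mul, heb]
      rw [← e1, ← e1]
      rcases le_max_iff.1 h4 with h6 | h6
      · have h7 : Real.exp (b * (Y / m)) ≤ Real.exp (b * ((X 0 j l).card : ℝ)) := by
          apply Real.exp_le_exp.2; gcongr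
        have h8 := Real.exp_pos (b * ((X 1 j l).card : ℝ))
        linarith
      · have h7 : Real.exp (b * (Y / m)) ≤ Real.exp (b * ((X 1 j l).card : ℝ)) := by
          apply Real.exp_le_exp.2; gcongr
        have h8 := Real.exp_pos (b * ((X 0 j l).card : ℝ))
        linarith
    calc Real.exp (b / (2 * A * m) * visits h l) ≤ Real.exp (b + b * (Y / m)) :=
          Real.exp_le_exp.2 h2
      _ = (1 + t) * Real.exp (b * (Y / m)) := by rw [Real.exp_add, heb]
      _ ≤ 2 * ((1 + t) ^ (X 0 j l).card + (1 + t) ^ (X 1 j l).card) := by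
          gcongr
          linarith
      _ ≤ _ := by
          gcongr
          exact Finset.single_le_sum (f := fun j => (1 + t) ^ (X 0 j l).card +
            (1 + t) ^ (X 1 j l).card) (fun _ _ => by positivity) hj
  refine (Finset.sum_le_sum key).trans ?_
  rw [← Finset.mul_sum, Finset.sum_comm]
  have h6 : ∀ j ∈ Finset.range (h + 1),
      ∑ l ∈ HF n, ((1 + t) ^ (X 0 j l).card + (1 + t) ^ (X 1 j l).card) ≤
        16 * ((HF n).card : ℝ) := by
    intro j hj
    rw [Finset.mem_range] at hj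
    have htj : t ≤ 1 / (2 * (16 : ℝ) ^ (j + 1)) := by
      rw [ht]
      apply one_div_le_one_div_of_le (by positivity)
      have : (16 : ℝ) ^ (j + 1) ≤ 16 ^ (h + 1) := pow_le_pow_right₀ (by norm_num) (by omega)
      linarith
    have h7 : ∀ c : ℤ, ∑ l ∈ HF n, (1 + t) ^ (X c j l).card ≤ 8 * ((HF n).card : ℝ) := by
      intro c
      refine (Finset.sum_le_sum (fun l _ => ?_)).trans (exp_moment c j n)
      gcongr
    rw [Finset.sum_add_distrib]
    linarith [h7 0, h7 1]
  refine (mul_le_mul_of_nonneg_left (Finset.sum_le_sum h6) (by norm_num)).trans (le_of_eq ?_)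
  rw [Finset.sum_const, Finset.card_range, nsmul_eq_mul, hm]
  push_cast
  ring

end Run7.h206.SV
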