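import Pool.Agent.Run7.h206.SV.Bump

/-! # Diametral sites -/

set_option autoImplicit false

namespace Run7.h206.SV

open scoped Classical

/-- squared Euclidean distance -/
def D2 (p q : P) : ℤ := (p.1 - q.1) ^ 2 + (p.2 - q.2) ^ 2

theorem D2_comm (p q : P) : D2 p q = D2 q p := by unfold D2; ring

theorem D2_nonneg (p q : P) : 0 ≤ D2 p q := by unfold D2; positivity

/-- the squared distances of the sites -/
noncomputable def ds (l : List P) : Finset ℤ :=
  Finset.image (fun q : P × P => D2 q.1 q.2) (Finset.product l.toFinset l.toFinset)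

theorem mem_ds {l : List P} {d : ℤ} : d ∈ ds l ↔ ∃ p ∈ l, ∃ q ∈ l, D2 p q = d := by
  unfold ds
  rw [Finset.mem_image]
  constructor
  · rintro ⟨q, hq, h⟩
    have h1 := Finset.mem_product.1 hq
    exact ⟨q.1, List.mem_toFinset.1 h1.1, q.2, List.mem_toFinset.1 h1.2, h⟩
  · rintro ⟨p, hp, q, hq, h⟩
    exact ⟨(p, q), Finset.mem_product.2 ⟨List.mem_toFinset.2 hp, List.mem_toFinset.2 hq⟩, h⟩

/-- the square of the diameter -/
noncomputable def dl (l : List P) : ℤ := if h : (ds l).Nonempty then (ds l).max' h else 0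

theorem le_dl {l : List P} {p q : P} (hp : p ∈ l) (hq : q ∈ l) : D2 p q ≤ dl l := by
  have h1 : D2 p q ∈ ds l := mem_ds.2 ⟨p, hp, q, hq, rfl⟩
  unfold dl
  rw [dif_pos ⟨_, h1⟩]
  exact Finset.le_max' _ _ h1

theorem dl_mem {l : List P} (hl : l ≠ []) : ∃ p ∈ l, ∃ q ∈ l, D2 p q = dl l := by
  obtain ⟨a, ha⟩ := List.exists_mem_of_ne_nil l hl
  have h1 : (ds l).Nonempty := ⟨D2 a a, mem_ds.2 ⟨a, ha, a, ha, rfl⟩⟩
  unfold dl
  rw [dif_pos h1]
  exact mem_ds.1 (Finset.max'_mem _ h1)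

/-- the lowest height in a column -/
noncomputable def cm (l : List P) (z : ℤ) : ℤ :=
  if h : ((l.toFinset.filter (fun p : P => p.1 = z)).image Prod.snd).Nonempty then
    ((l.toFinset.filter (fun p : P => p.1 = z)).image Prod.snd).min' h else 0

theorem cm_le {l : List P} {p : P} (hp : p ∈ l) : cm l p.1 ≤ p.2 := by
  have h1 : p.2 ∈ (l.toFinset.filter (fun q : P => q.1 = p.1)).image Prod.snd :=
    Finset.mem_image_of_mem _ (Finset.mem_filter.2 ⟨List.mem_toFinset.2 hp, rfl⟩)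
  unfold cm
  rw [dif_pos ⟨_, h1⟩]
  exact Finset.min'_le _ _ h1

theorem cm_eq {l : List P} {p : P} (hp : p ∈ l) (h : ∀ q ∈ l, q.1 = p.1 → p.2 ≤ q.2) :
    cm l p.1 = p.2 := by
  apply le_antisymm (cm_le hp)
  have h1 : p.2 ∈ (l.toFinset.filter (fun q : P => q.1 = p.1)).image Prod.snd :=
    Finset.mem_image_of_mem _ (Finset.mem_filter.2 ⟨List.mem_toFinset.2 hp, rfl⟩)
  unfold cm
  rw [dif_pos ⟨_, h1⟩]
  apply Finset.le_min'
  intro y hy
  rw [Finset.mem_image] at hy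
  obtain ⟨q, hq, rfl⟩ := hy
  rw [Finset.mem_filter, List.mem_toFinset] at hq
  exact h q hq.1 hq.2

/-- one of the two ends of the edge has a partner at maximal distance, roughly above it -/
def Tip (l : List P) (z : ℤ) : Prop := ∃ z' : ℤ, (z' = z ∨ z' = z + 1) ∧ ∃ q ∈ l,
  D2 (z', cm l z) q = dl l ∧ |z' - q.1| ≤ q.2 - cm l z

/-- the exposed edges at diametral sites -/
noncomputable def Z (c : ℤ) (l : List P) : Finset ℤ :=
  (RF (cm l) l).filter (fun z => z % 2 = c ∧ cm l (z + 1) = cm l z ∧ Tip l z)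

theorem notRg {c : ℤ} {l : List P} {S : Finset ℤ} (hS : S ⊆ Z c l) :
    ∀ p ∈ l, ¬ Rg S (cm l) p := by
  rintro p hp ⟨x, hx, h1, h2⟩
  have h3 := (Finset.mem_filter.1 (hS hx)).2.2.1
  have h4 := cm_le hp
  rcases h1 with h1 | h1
  · rw [h1] at h4; omega
  · rw [h1, h3] at h4; omega

theorem bmp_mem {c : ℤ} {n : ℕ} {l : List P} (hl : l ∈ SF n) {S : Finset ℤ} (hS : S ⊆ Z c l) :
    bmp S (cm l) l ∈ SF (n + 2 * S.card) := by
  rw [mem_SF] at hl ⊢
  obtain ⟨h1, h2, h3, h4⟩ := hl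
  have hSR : S ⊆ RF (cm l) l := fun x hx => (Finset.mem_filter.1 (hS hx)).1
  refine ⟨?_, ?_, chain_bmp h3, ?_⟩
  · rw [length_bmp h3 h4, h1, Finset.inter_eq_left.2 hSR]
    ring
  · rw [head_bmp, h2]
  · exact nodup_bmp (c := c) h3 h4 (fun x hx => (Finset.mem_filter.1 (hS hx)).2.1) (notRg hS)

/-- every site of the new walk is a site of the old one, or one below such a site -/
theorem site {S : Finset ℤ} {f : ℤ → ℤ} {l : List P} (hc : l.IsChain Adj) {p : P}
    (hp : p ∈ bmp S f l) : ∃ o ∈ l, ∃ e : ℤ, (e = 0 ∨ e = 1) ∧ p = (o.1, o.2 - e) := by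
  rw [mem_bmp hc] at hp
  rcases hp with hp | ⟨x, -, hx, h1, h2⟩
  · exact ⟨p, hp, 0, Or.inl rfl, by simp⟩
  · obtain ⟨h3, h4⟩ := mem_RF hc hx
    rcases h1 with h1 | h1
    · exact ⟨_, h3, 1, Or.inr rfl, Prod.ext h1 h2⟩
    · exact ⟨_, h4, 1, Or.inr rfl, Prod.ext h1 h2⟩

theorem sqrt_step {a b D : ℝ} (hb : |a| ≤ b) (hD : D = a ^ 2 + b ^ 2) :
    Real.sqrt D + 7 / 10 ≤ Real.sqrt (D + 2 * b + 1) := by
  have hb0 : 0 ≤ b := (abs_nonneg a).trans hb
  have ha : a ^ 2 ≤ b ^ 2 := by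
    rw [← sq_abs a]
    exact pow_le_pow_left₀ (abs_nonneg a) hb 2
  have hD0 : 0 ≤ D := by rw [hD]; positivity
  apply Real.le_sqrt_of_sq_le
  have h1 : Real.sqrt D ^ 2 = D := Real.sq_sqrt hD0
  have h2 : Real.sqrt D ≤ 10 / 7 * b := by
    apply Real.sqrt_le_iff.2
    refine ⟨by positivity, ?_⟩
    have h3 : (10 / 7 * b) ^ 2 = 100 / 49 * b ^ 2 := by ring
    have h4 : 0 ≤ b ^ 2 := sq_nonneg b
    rw [h3, hD]
    linarith
  have h5 : (Real.sqrt D + 7 / 10) ^ 2 = Real.sqrt D ^ 2 + 7 / 5 * Real.sqrt D + 49 / 100 := by ring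
  rw [h5, h1]
  linarith

theorem dl_upper {S : Finset ℤ} {f : ℤ → ℤ} {l : List P} (hc : l.IsChain Adj) (hl : l ≠ []) :
    Real.sqrt (dl (bmp S f l)) ≤ Real.sqrt (dl l) + 1 := by
  have hne : bmp S f l ≠ [] := by
    cases l with
    | nil => exact absurd rfl hl
    | cons a l =>
      cases l with
      | nil => simp [bmp]
      | cons b l => simp [bmp]
  obtain ⟨p, hp, q, hq, h⟩ := dl_mem hne
  obtain ⟨o, ho, e, he, rfl⟩ := site hc hp
  obtain ⟨o', ho', e', he', rfl⟩ := site hc hq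
  have h1 : D2 o o' ≤ dl l := le_dl ho ho'
  rw [← h]
  have h2 : (D2 o o' : ℝ) ≤ dl l := by exact_mod_cast h1
  have h0 : (0 : ℝ) ≤ D2 o o' := by exact_mod_cast D2_nonneg _ _
  have h3 : Real.sqrt (D2 o o') ≤ Real.sqrt (dl l) := Real.sqrt_le_sqrt h2
  have h4 : |(o.2 : ℝ) - o'.2| ≤ Real.sqrt (D2 o o') := by
    apply Real.abs_le_sqrt
    unfold D2
    push_cast
    exact le_add_of_nonneg_left (sq_nonneg _)
  have h5 : Real.sqrt (D2 (o.1, o.2 - e) (o'.1, o'.2 - e')) ≤ Real.sqrt (D2 o o') + 1 := by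
    apply Real.sqrt_le_iff.2
    refine ⟨by positivity, ?_⟩
    have h6 : Real.sqrt (D2 o o') ^ 2 = D2 o o' := Real.sq_sqrt h0
    have h7 : |((e' : ℤ) : ℝ) - e| ≤ 1 := by
      have : |e' - e| ≤ 1 := by
        rcases he with rfl | rfl <;> rcases he' with rfl | rfl <;> simp
      exact_mod_cast this
    have h8 : ((D2 (o.1, o.2 - e) (o'.1, o'.2 - e') : ℤ) : ℝ) =
        D2 o o' + 2 * (((o.2 : ℝ) - o'.2) * (e' - e)) + ((e' : ℝ) - e) ^ 2 := by
      unfold D2
      push_cast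
      ring
    have h9 : ((o.2 : ℝ) - o'.2) * (e' - e) ≤ Real.sqrt (D2 o o') := by
      refine (le_abs_self _).trans ?_
      rw [abs_mul]
      calc |(o.2 : ℝ) - o'.2| * |(e' : ℝ) - e| ≤ Real.sqrt (D2 o o') * 1 := by gcongr
        _ = _ := mul_one _
    have h10 : ((e' : ℝ) - e) ^ 2 ≤ 1 := by
      rw [← sq_abs]
      calc |(e' : ℝ) - e| ^ 2 ≤ 1 ^ 2 := pow_le_pow_left₀ (abs_nonneg _) h7 2
        _ = 1 := by norm_num
    have h11 : (Real.sqrt (D2 o o') + 1) ^ 2 =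
        Real.sqrt (D2 o o') ^ 2 + 2 * Real.sqrt (D2 o o') + 1 := by ring
    rw [h8, h11, h6]
    linarith
  linarith

/-- the sites of the new walk which are recognised as new -/
def Tp (l : List P) (x : P) : Prop :=
  x ∈ l ∧ ∃ y ∈ l, Real.sqrt (dl l) - 3 / 10 ≤ Real.sqrt (D2 x y) ∧ x.2 < y.2

theorem tip_gain {l : List P} {z : ℤ} (hz : Tip l z) : ∃ z' : ℤ, (z' = z ∨ z' = z + 1) ∧
    ∃ q ∈ l, Real.sqrt (dl l) + 7 / 10 ≤ Real.sqrt (D2 (z', cm l z - 1) q) ∧ cm l z - 1 < q.2 := by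
  obtain ⟨z', h1, q, hq, h2, h3⟩ := hz
  refine ⟨z', h1, q, hq, ?_, ?_⟩
  · have h4 : |(z' : ℝ) - q.1| ≤ (q.2 : ℝ) - cm l z := by exact_mod_cast h3
    have h5 : (dl l : ℝ) = ((z' : ℝ) - q.1) ^ 2 + ((q.2 : ℝ) - cm l z) ^ 2 := by
      rw [← h2]
      unfold D2
      push_cast
      ring
    have h6 := sqrt_step h4 h5
    refine h6.trans (le_of_eq ?_)
    congr 1
    rw [h5]
    unfold D2
    push_cast
    ring
  · have := abs_nonneg (z' - q.1)
    omega

theorem S_recover {c : ℤ} {l : List P} (hc : l.IsChain Adj) (hl : l ≠ []) {S : Finset ℤ}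
    (hS : S ⊆ Z c l) (hne : S.Nonempty) (z : ℤ) :
    z ∈ S ↔ z % 2 = c ∧ ∃ x, Tp (bmp S (cm l) l) x ∧ (x.1 = z ∨ x.1 = z + 1) := by
  have hup := dl_upper (S := S) (f := cm l) hc hl
  have hmem : ∀ u ∈ S, ∀ z' : ℤ, (z' = u ∨ z' = u + 1) → (z', cm l u - 1) ∈ bmp S (cm l) l := by
    intro u hu z' hz'
    rw [mem_bmp hc]
    exact Or.inr ⟨u, hu, (Finset.mem_filter.1 (hS hu)).1, hz', rfl⟩
  have hlow : Real.sqrt (dl l) + 7 / 10 ≤ Real.sqrt (dl (bmp S (cm l) l)) := by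
    obtain ⟨u, hu⟩ := hne
    obtain ⟨z', h1, q, hq, h2, -⟩ := tip_gain (Finset.mem_filter.1 (hS hu)).2.2.2
    refine h2.trans (Real.sqrt_le_sqrt ?_)
    have hq' : q ∈ bmp S (cm l) l := by rw [mem_bmp hc]; exact Or.inl hq
    exact_mod_cast le_dl (hmem u hu z' h1) hq'
  constructor
  · intro hz
    refine ⟨(Finset.mem_filter.1 (hS hz)).2.1, ?_⟩
    obtain ⟨z', h1, q, hq, h2, h3⟩ := tip_gain (Finset.mem_filter.1 (hS hz)).2.2.2
    refine ⟨(z', cm l z - 1), ⟨hmem z hz z' h1, q, ?_, ?_, h3⟩, h1⟩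
    · rw [mem_bmp hc]; exact Or.inl hq
    · linarith
  · rintro ⟨hzc, x, ⟨hx, y, hy, hxy, hlt⟩, hxz⟩
    have hxl : x ∉ l := by
      intro hxl
      rw [mem_bmp hc] at hy
      have hle : D2 x y ≤ dl l := by
        rcases hy with hy | ⟨u, -, hu, h1, h2⟩
        · exact le_dl hxl hy
        · obtain ⟨h3, h4⟩ := mem_RF hc hu
          have ho : (y.1, cm l u) ∈ l := by
            rcases h1 with h1 | h1
            · rw [h1]; exact h3
            · rw [h1]; exact h4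
          refine le_trans ?_ (le_dl hxl ho)
          have h6 : (x.2 - (cm l u - 1)) ^ 2 =
              (x.2 - cm l u) ^ 2 + 2 * (x.2 - cm l u) + 1 := by ring
          show (x.1 - y.1) ^ 2 + (x.2 - y.2) ^ 2 ≤ (x.1 - y.1) ^ 2 + (x.2 - cm l u) ^ 2
          rw [h2] at hlt ⊢
          rw [h6]
          linarith
      have h5 : Real.sqrt (D2 x y) ≤ Real.sqrt (dl l) := Real.sqrt_le_sqrt (by exact_mod_cast hle)
      linarith
    rw [mem_bmp hc] at hx
    rcases hx with hx | ⟨u, hu, -, h1, -⟩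
    · exact absurd hx hxl
    · have e1 := (Finset.mem_filter.1 (hS hu)).2.1
      have : z = u := by omega
      rw [this]
      exact hu

theorem bmp_inj {c : ℤ} {l l' : List P} (h3 : l.IsChain Adj) (h3' : l'.IsChain Adj)
    (hl : l ≠ []) (hl' : l' ≠ []) {S S' : Finset ℤ} (hS : S ⊆ Z c l) (hS' : S' ⊆ Z c l')
    (hne : S.Nonempty) (hne' : S'.Nonempty)
    (h : bmp S (cm l) l = bmp S' (cm l') l') : l = l' ∧ S = S' := by
  have hSS : S = S' := by
    ext z
    rw [S_recover h3 hl hS hne, S_recover h3' hl' hS' hne', h]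
  subst hSS
  have key : ∀ l l' : List P, l.IsChain Adj → l'.IsChain Adj → S ⊆ Z c l → S ⊆ Z c l' →
      bmp S (cm l) l = bmp S (cm l') l' → ∀ z ∈ S, cm l' z ≤ cm l z := by
    intro l l' h3 h3' hS hS' h z hz
    have h4 : (z, cm l z - 1) ∈ bmp S (cm l) l := by
      rw [mem_bmp h3]
      exact Or.inr ⟨z, hz, (Finset.mem_filter.1 (hS hz)).1, Or.inl rfl, rfl⟩
    rw [h, mem_bmp h3'] at h4
    rcases h4 with h4 | ⟨u, hu, -, h5, h6⟩
    · have := cm_le h4
      simp only at this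
      omega
    · have e1 := (Finset.mem_filter.1 (hS hz)).2.1
      have e2 := (Finset.mem_filter.1 (hS' hu)).2.1
      simp only at h5 h6
      have : z = u := by omega
      rw [this] at h6 ⊢
      omega
  have hf : ∀ z ∈ S, cm l z = cm l' z := fun z hz =>
    le_antisymm (key l' l h3' h3 hS' hS h.symm z hz) (key l l' h3 h3' hS hS' h z hz)
  refine ⟨?_, rfl⟩
  rw [← filter_bmp h3 (notRg hS), ← filter_bmp h3' (notRg hS'), h]
  refine List.filter_congr (fun p _ => ?_)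
  have : Rg S (cm l) p ↔ Rg S (cm l') p := by
    unfold Rg
    constructor
    · rintro ⟨x, hx, h1, h2⟩
      exact ⟨x, hx, h1, by rw [← hf x hx]; exact h2⟩
    · rintro ⟨x, hx, h1, h2⟩
      exact ⟨x, hx, h1, by rw [hf x hx]; exact h2⟩
  simp [this]

theorem SF_ne {n : ℕ} {l : List P} (hl : l ∈ SF n) : l ≠ [] := by
  rintro rfl
  rw [mem_SF] at hl
  simp at hl

theorem exp_Z (c : ℤ) (n : ℕ) :
    ∑ l ∈ SF n, (1 + 1 / 32 : ℝ) ^ (Z c l).card ≤ 2 * (SF n).card := by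
  set t : ℝ := 1 / 32 with ht
  have ht0 : 0 < t := by positivity
  have h1 : ∀ l, (1 + t) ^ (Z c l).card = ∑ S ∈ (Z c l).powerset, t ^ S.card := by
    intro l
    rw [add_comm, ← Finset.sum_pow_mul_eq_add_pow]
    simp
  simp_rw [h1]
  rw [Finset.sum_sigma']
  set Q := (SF n).sigma (fun l => (Z c l).powerset) with hQ
  set J := Q.image (fun q => q.2.card) with hJ
  have h2 : ∑ q ∈ Q, t ^ q.2.card = ∑ j ∈ J, ∑ q ∈ Q.filter (fun q => q.2.card = j), t ^ q.2.card := by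
    rw [Finset.sum_fiberwise_of_maps_to]
    intro q hq
    exact Finset.mem_image_of_mem _ hq
  rw [h2]
  have h3 : ∀ j ∈ J, ∑ q ∈ Q.filter (fun q => q.2.card = j), t ^ q.2.card ≤
      (1 / 2) ^ j * (SF n).card := by
    intro j _
    have h4 : ∑ q ∈ Q.filter (fun q => q.2.card = j), t ^ q.2.card =
        ((Q.filter (fun q => q.2.card = j)).card : ℝ) * t ^ j := by
      rw [Finset.sum_congr rfl (fun q hq => by rw [(Finset.mem_filter.1 hq).2]), Finset.sum_const,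
        nsmul_eq_mul]
    rcases Nat.eq_zero_or_pos j with rfl | hj
    · have h5 : (Q.filter (fun q => q.2.card = 0)).card ≤ (SF n).card := by
        refine Finset.card_le_card_of_injOn (fun q => q.1) ?_ ?_
        · intro q hq
          rw [Finset.mem_coe, Finset.mem_filter, hQ, Finset.mem_sigma] at hq
          exact hq.1.1
        · rintro ⟨l, S⟩ hq ⟨l', S'⟩ hq' h
          rw [Finset.mem_coe, Finset.mem_filter] at hq hq'
          have e1 := Finset.card_eq_zero.1 hq.2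
          have e2 := Finset.card_eq_zero.1 hq'.2
          simp only at h e1 e2
          subst h e1 e2
          rfl
      rw [h4, pow_zero, pow_zero, mul_one, one_mul]
      exact_mod_cast h5
    have h5 : (Q.filter (fun q => q.2.card = j)).card ≤ (SF (n + 2 * j)).card := by
      refine Finset.card_le_card_of_injOn (fun q => bmp q.2 (cm q.1) q.1) ?_ ?_
      · intro q hq
        rw [Finset.mem_coe, Finset.mem_filter, hQ, Finset.mem_sigma, Finset.mem_powerset] at hq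
        rw [Finset.mem_coe, ← hq.2]
        exact bmp_mem hq.1.1 hq.1.2
      · rintro ⟨l, S⟩ hq ⟨l', S'⟩ hq' h
        rw [Finset.mem_coe, Finset.mem_filter, hQ, Finset.mem_sigma, Finset.mem_powerset] at hq hq'
        have hne : S.Nonempty := Finset.card_pos.1 (by rw [hq.2]; exact hj)
        have hne' : S'.Nonempty := Finset.card_pos.1 (by rw [hq'.2]; exact hj)
        obtain ⟨rfl, rfl⟩ := bmp_inj (mem_SF.1 hq.1.1).2.2.1 (mem_SF.1 hq'.1.1).2.2.1
          (SF_ne hq.1.1) (SF_ne hq'.1.1) hq.1.2 hq'.1.2 hne hne' h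
        rfl
    have h6 := SF_grow n (2 * j)
    have h7 : ((Q.filter (fun q => q.2.card = j)).card : ℝ) ≤ 4 ^ (2 * j) * (SF n).card := by
      exact_mod_cast h5.trans h6
    rw [h4]
    calc ((Q.filter (fun q => q.2.card = j)).card : ℝ) * t ^ j
        ≤ (4 ^ (2 * j) * (SF n).card) * t ^ j := by gcongr
      _ = (1 / 2) ^ j * (SF n).card := by
        have e2 : ((4 : ℝ) ^ (2 * j)) * t ^ j = (1 / 2) ^ j := by
          rw [pow_mul, ← mul_pow, ht]
          norm_num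
        linear_combination ((SF n).card : ℝ) * e2
  refine (Finset.sum_le_sum h3).trans ?_
  rw [← Finset.sum_mul]
  have h8 := half_sum_le J
  have h9 : (0 : ℝ) ≤ (SF n).card := by positivity
  nlinarith

end Run7.h206.SV
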