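import Pool.Agent.Run7.h206.SV.Gen

/-! # Walks in the whole plane: sites close to the boundary of the bounding box -/

set_option autoImplicit false

namespace Run7.h206.SV

open scoped Classical

/-- the self-avoiding walks with `n` steps -/
noncomputable def SF (n : ℕ) : Finset (List P) := (wk_fin Set.univ n 0).toFinset

theorem mem_SF {n : ℕ} {l : List P} : l ∈ SF n ↔
    l.length = n + 1 ∧ l.head? = some 0 ∧ l.IsChain Adj ∧ l.Nodup := by
  unfold SF
  rw [Set.Finite.mem_toFinset]
  unfold Wk
  simp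

theorem card_SF (n : ℕ) : (SF n).card = (Wk Set.univ n 0).ncard := by
  unfold SF
  rw [Set.ncard_eq_toFinset_card _ (wk_fin Set.univ n 0)]

theorem SF_grow (n m : ℕ) : (SF (n + m)).card ≤ 4 ^ m * (SF n).card := by
  rw [card_SF, card_SF]
  exact wk_card_add _ _ _ _

/-- translation -/
def tr (v : P) (l : List P) : List P := l.map (fun p => p + v)

theorem tr_tr (u v : P) (l : List P) : tr u (tr v l) = tr (v + u) l := by
  unfold tr
  rw [List.map_map]
  congr 1
  funext p
  simp [add_assoc]

theorem tr_zero (l : List P) : tr 0 l = l := by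
  unfold tr
  simp

theorem tr_chain {v : P} {l : List P} (h : l.IsChain Adj) : (tr v l).IsChain Adj := by
  unfold tr
  rw [List.isChain_map]
  refine h.imp (fun p q h => ?_)
  rw [adj_iff] at h ⊢
  simpa using h

theorem tr_nodup {v : P} {l : List P} (h : l.Nodup) : (tr v l).Nodup := by
  unfold tr
  refine h.map ?_
  intro p q h
  simpa using h

theorem mem_tr {v p : P} {l : List P} : p ∈ tr v l ↔ p - v ∈ l := by
  unfold tr
  rw [List.mem_map]
  constructor
  · rintro ⟨q, hq, rfl⟩
    simpa using hq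
  · intro h
    exact ⟨_, h, by simp⟩

/-- the minimal height -/
noncomputable def mh (l : List P) : ℤ := if h : (l.toFinset.image Prod.snd).Nonempty then
  (l.toFinset.image Prod.snd).min' h else 0

theorem mh_le {l : List P} {p : P} (hp : p ∈ l) : mh l ≤ p.2 := by
  have h1 : p.2 ∈ l.toFinset.image Prod.snd := Finset.mem_image_of_mem _ (List.mem_toFinset.2 hp)
  unfold mh
  rw [dif_pos ⟨_, h1⟩]
  exact Finset.min'_le _ _ h1

theorem mh_mem {l : List P} (hl : l ≠ []) : ∃ p ∈ l, p.2 = mh l := by
  obtain ⟨a, ha⟩ := List.exists_mem_of_ne_nil l hl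
  have h1 : (l.toFinset.image Prod.snd).Nonempty :=
    ⟨_, Finset.mem_image_of_mem _ (List.mem_toFinset.2 ha)⟩
  unfold mh
  rw [dif_pos h1]
  have h2 := Finset.min'_mem _ h1
  rw [Finset.mem_image] at h2
  obtain ⟨p, hp, h3⟩ := h2
  exact ⟨p, List.mem_toFinset.1 hp, h3⟩

/-- the walk shifted such that its lowest line is `y = 0` -/
noncomputable def nz (l : List P) : List P := tr (0, -mh l) l

theorem nz_bottom {l : List P} (hl : l ≠ []) : ∃ p ∈ nz l, p.2 = 0 := by
  obtain ⟨p, hp, h⟩ := mh_mem hl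
  refine ⟨p + (0, -mh l), ?_, ?_⟩
  · unfold nz
    rw [mem_tr]
    simpa using hp
  · simp [h]

theorem nz_up {l : List P} : ∀ p ∈ nz l, 0 ≤ p.2 := by
  intro p hp
  unfold nz at hp
  rw [mem_tr] at hp
  have := mh_le hp
  simp only [Prod.snd_sub] at this
  linarith

/-- a list with lowest line `y = 0` is determined by any of its vertical translates -/
theorem nz_of {l : List P} (h0 : ∀ p ∈ l, 0 ≤ p.2) (h1 : ∃ p ∈ l, p.2 = 0) (s : ℤ) :
    nz (tr (0, -s) l) = l := by
  have hm : mh (tr (0, -s) l) = -s := by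
    obtain ⟨p, hp, hp0⟩ := h1
    apply le_antisymm
    · have := mh_le (l := tr (0, -s) l) (p := p + (0, -s)) (by rw [mem_tr]; simpa using hp)
      simpa [hp0] using this
    · obtain ⟨q, hq, h2⟩ := mh_mem (l := tr (0, -s) l) (by
        intro h
        have : p + (0, -s) ∈ tr (0, -s) l := by rw [mem_tr]; simpa using hp
        rw [h] at this
        simp at this)
      rw [mem_tr] at hq
      have := h0 _ hq
      rw [← h2]
      simp only [Prod.snd_sub] at this
      linarith
  unfold nz
  rw [tr_tr, hm]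
  have : ((0, -s) + (0, - -s) : P) = 0 := by simp
  rw [this, tr_zero]

theorem nz_inj {l l' : List P} (h : l.head? = some 0) (h' : l'.head? = some 0)
    (heq : nz l = nz l') : l = l' := by
  unfold nz at heq
  have h1 : (tr (0, -mh l) l).head? = (tr (0, -mh l') l').head? := by rw [heq]
  unfold tr at h1
  rw [List.head?_map, List.head?_map, h, h'] at h1
  simp only [Option.map_some, zero_add, Option.some.injEq, Prod.mk.injEq, true_and] at h1
  rw [h1] at heq
  unfold tr at heq
  exact List.map_injective_iff.2 (fun p q h => by simpa using h) heq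

/-- the walks with `2 m + e` steps, shifted -/
noncomputable def LF (e m : ℕ) : Finset (List P) := (SF (2 * m + e)).image nz

theorem card_LF (e m : ℕ) : (LF e m).card = (SF (2 * m + e)).card := by
  unfold LF
  rw [Finset.card_image_of_injOn]
  intro l hl l' hl' h
  exact nz_inj (mem_SF.1 hl).2.1 (mem_SF.1 hl').2.1 h

theorem sum_LF (e m : ℕ) (F : List P → ℝ) : ∑ l ∈ LF e m, F l = ∑ l ∈ SF (2 * m + e), F (nz l) := by
  unfold LF
  rw [Finset.sum_image]
  intro l hl l' hl' h
  exact nz_inj (mem_SF.1 hl).2.1 (mem_SF.1 hl').2.1 h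

theorem mem_LF {e m : ℕ} {l : List P} : l ∈ LF e m ↔ l.length = 2 * m + e + 1 ∧ Ok l ∧
    (∃ p ∈ l, p.2 = 0) ∧ ∃ s : ℤ, l.head? = some (0, s) := by
  unfold LF
  rw [Finset.mem_image]
  constructor
  · rintro ⟨w, hw, rfl⟩
    rw [mem_SF] at hw
    obtain ⟨h1, h2, h3, h4⟩ := hw
    have hne : w ≠ [] := by
      rintro rfl
      simp at h1
    refine ⟨?_, ⟨tr_chain h3, tr_nodup h4, nz_up⟩, nz_bottom hne, -mh w, ?_⟩
    · unfold nz tr
      rw [List.length_map, h1]
    · unfold nz tr
      rw [List.head?_map, h2]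
      simp
  · rintro ⟨h1, h2, h3, s, h4⟩
    refine ⟨tr (0, -s) l, ?_, nz_of h2.up h3 s⟩
    rw [mem_SF]
    refine ⟨?_, ?_, tr_chain h2.chain, tr_nodup h2.nodup⟩
    · unfold tr
      rw [List.length_map, h1]
    · unfold tr
      rw [List.head?_map, h4]
      simp

theorem cls_LF (e : ℕ) : Cls (LF e) 16 where
  one := by norm_num
  ok := fun m l hl => (mem_LF.1 hl).2.1
  spike := by
    intro m c k l S hl hS hne
    obtain ⟨h1, h2, h3, s, h4⟩ := mem_LF.1 hl
    rw [mem_LF]
    refine ⟨?_, ok_sh h2 hS, bottom_sh h2 hS hne, s + 1, ?_⟩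
    · rw [length_sh h2 hS, h1]
      ring
    · unfold sh
      rw [List.head?_map, head_spk, h4]
      simp
  grow := by
    intro m r
    rw [card_LF, card_LF]
    have h := SF_grow (2 * m + e) (2 * r)
    have e1 : 2 * (m + r) + e = 2 * m + e + 2 * r := by ring
    rw [e1]
    have e2 : (16 : ℝ) ^ r = 4 ^ (2 * r) := by
      rw [pow_mul]
      norm_num
    rw [e2]
    exact_mod_cast h

/-- the number of the sites at distance at most `h` from the lowest line -/
noncomputable def low (h : ℕ) (l : List P) : ℕ := visits h (nz l)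

theorem low_exp (h : ℕ) : ∃ α C : ℝ, 0 < α ∧ 0 < C ∧ ∀ n : ℕ,
    ∑ l ∈ SF n, Real.exp (α * low h l) ≤ C * (SF n).card := by
  obtain ⟨α0, C0, h0, g0, H0⟩ := visits_exp0 (cls_LF 0) h
  obtain ⟨α1, C1, h1, g1, H1⟩ := visits_exp0 (cls_LF 1) h
  refine ⟨min α0 α1, max C0 C1, lt_min h0 h1, lt_max_of_lt_left g0, fun n => ?_⟩
  have key : ∀ e : ℕ, ∀ α C : ℝ, min α0 α1 ≤ α → C ≤ max C0 C1 →
      (∀ m : ℕ, ∑ l ∈ LF e m, Real.exp (α * visits h l) ≤ C * (LF e m).card) → ∀ m,
      n = 2 * m + e → ∑ l ∈ SF n, Real.exp (min α0 α1 * low h l) ≤ max C0 C1 * (SF n).card := by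
    intro e α C hα hC H m hn
    subst hn
    calc ∑ l ∈ SF (2 * m + e), Real.exp (min α0 α1 * low h l)
        ≤ ∑ l ∈ SF (2 * m + e), Real.exp (α * visits h (nz l)) := by
          refine Finset.sum_le_sum (fun l _ => Real.exp_le_exp.2 ?_)
          unfold low
          gcongr
      _ = ∑ l ∈ LF e m, Real.exp (α * visits h l) :=
          (sum_LF e m (fun l => Real.exp (α * visits h l))).symm
      _ ≤ C * (LF e m).card := H m
      _ ≤ max C0 C1 * (SF (2 * m + e)).card := by
          rw [card_LF]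
          gcongr
  rcases Nat.even_or_odd' n with ⟨m, hm | hm⟩
  · exact key 0 α0 C0 (min_le_left _ _) (le_max_left _ _) H0 m (by omega)
  · exact key 1 α1 C1 (min_le_right _ _) (le_max_right _ _) H1 m (by omega)

theorem low_eq (h : ℕ) (l : List P) : low h l = l.countP (fun p => decide (p.2 ≤ mh l + h)) := by
  unfold low visits nz tr
  rw [List.countP_map]
  refine List.countP_congr (fun p _ => ?_)
  simp only [Function.comp, Prod.snd_add, decide_eq_true_eq]
  constructor <;> intro h <;> linarith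

end Run7.h206.SV
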