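import Pool.Agent.Run7.h206.SV.Col

/-! # Spikes: general classes of walks, measured from their lowest line -/

set_option autoImplicit false

namespace Run7.h206.SV

open scoped Classical

/-- as `X`, without the exceptional columns -/
def X0 (c : ℤ) (k : ℕ) (l : List P) : Finset ℤ :=
  (R k l).filter (fun x => x % 2 = c ∧ ∀ p ∈ l, (p.1 = x ∨ p.1 = x + 1) → (k : ℤ) ≤ p.2)

/-- self-avoiding, in the upper half-plane -/
structure Ok (l : List P) : Prop where
  chain : l.IsChain Adj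
  nodup : l.Nodup
  up : ∀ p ∈ l, 0 ≤ p.2

theorem notReg0 {c : ℤ} {k : ℕ} {l : List P} {S : Finset ℤ} (hS : S ⊆ X0 c k l) :
    ∀ p ∈ l, ¬ Reg S k p := by
  rintro p hp ⟨x, hx, h1, h2⟩
  have h3 := (Finset.mem_filter.1 (hS hx)).2.2 p hp h1
  omega

theorem ok_sh {c : ℤ} {k : ℕ} {l : List P} (hl : Ok l) {S : Finset ℤ} (hS : S ⊆ X0 c k l) :
    Ok (sh (spk S k l)) := by
  refine ⟨?_, ?_, ?_⟩
  · unfold sh
    rw [List.isChain_map]
    refine (chain_spk hl.chain).imp (fun p q h => ?_)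
    rw [adj_iff] at h ⊢
    simpa using h
  · refine (nodup_spk (c := c) hl.chain hl.nodup
      (fun x hx => (Finset.mem_filter.1 (hS hx)).2.1) (notReg0 hS)).map ?_
    intro p q h
    simpa using h
  · intro p hp
    unfold sh at hp
    rw [List.mem_map] at hp
    obtain ⟨p, hp, rfl⟩ := hp
    rw [mem_spk hl.chain] at hp
    show (0 : ℤ) ≤ p.2 + 1
    rcases hp with hp | ⟨x, hx, -, h7, h8, -⟩
    · have := hl.up p hp
      omega
    · omega

theorem length_sh {c : ℤ} {k : ℕ} {l : List P} (hl : Ok l) {S : Finset ℤ} (hS : S ⊆ X0 c k l) :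
    (sh (spk S k l)).length = l.length + 2 * ((k + 1) * S.card) := by
  have hSR : S ⊆ R k l := fun x hx => (Finset.mem_filter.1 (hS hx)).1
  unfold sh
  rw [List.length_map, length_spk hl.chain hl.nodup, Finset.inter_eq_left.2 hSR]
  ring

theorem bottom_sh {c : ℤ} {k : ℕ} {l : List P} (hl : Ok l) {S : Finset ℤ} (hS : S ⊆ X0 c k l)
    (hne : S.Nonempty) : ∃ p ∈ sh (spk S k l), p.2 = 0 := by
  obtain ⟨x, hx⟩ := hne
  have hxR : x ∈ R k l := (Finset.mem_filter.1 (hS hx)).1
  refine ⟨(x, -1) + (0, 1), ?_, by simp⟩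
  unfold sh
  rw [List.mem_map]
  refine ⟨(x, -1), ?_, rfl⟩
  rw [mem_spk hl.chain]
  exact Or.inr ⟨x, hx, hxR, Or.inl rfl, le_refl _, by simp; omega⟩

theorem sub_of_spk0 {c : ℤ} {k : ℕ} {l l' : List P} {S S' : Finset ℤ} (hl : Ok l) (hl' : Ok l')
    (hS : S ⊆ X0 c k l) (hS' : S' ⊆ X0 c k l') (h : spk S k l = spk S' k l') : S ⊆ S' := by
  intro x hx
  have hxR : x ∈ R k l := (Finset.mem_filter.1 (hS hx)).1
  have h6 : (x, (-1 : ℤ)) ∈ spk S k l := by
    rw [mem_spk hl.chain]
    exact Or.inr ⟨x, hx, hxR, Or.inl rfl, le_refl _, by simp; omega⟩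
  rw [h, mem_spk hl'.chain] at h6
  rcases h6 with h6 | ⟨y, hy, -, h7, -⟩
  · have : (0 : ℤ) ≤ -1 := hl'.up _ h6
    omega
  · have e1 := (Finset.mem_filter.1 (hS hx)).2.1
    have e2 := (Finset.mem_filter.1 (hS' hy)).2.1
    simp only at h7
    have : x = y := by omega
    rw [this]
    exact hy

theorem sh_spk_inj {c : ℤ} {k : ℕ} {l l' : List P} (hl : Ok l) (hl' : Ok l') {S S' : Finset ℤ}
    (hS : S ⊆ X0 c k l) (hS' : S' ⊆ X0 c k l') (h : sh (spk S k l) = sh (spk S' k l')) :
    l = l' ∧ S = S' := by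
  have h1 : spk S k l = spk S' k l' := sh_inj h
  have h2 : S = S' := Finset.Subset.antisymm (sub_of_spk0 hl hl' hS hS' h1)
    (sub_of_spk0 hl' hl hS' hS h1.symm)
  subst h2
  refine ⟨?_, rfl⟩
  rw [← filter_spk hl.chain (notReg0 hS), ← filter_spk hl'.chain (notReg0 hS'), h1]

/-- a class of walks which is stable under spikes and does not grow too fast -/
structure Cls (𝓛 : ℕ → Finset (List P)) (M : ℝ) : Prop where
  one : 1 ≤ M
  ok : ∀ m, ∀ l ∈ 𝓛 m, Ok l
  spike : ∀ (m : ℕ) (c : ℤ) (k : ℕ) (l : List P) (S : Finset ℤ), l ∈ 𝓛 m → S ⊆ X0 c k l →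
    S.Nonempty → sh (spk S k l) ∈ 𝓛 (m + (k + 1) * S.card)
  grow : ∀ m r, ((𝓛 (m + r)).card : ℝ) ≤ M ^ r * (𝓛 m).card

theorem exp_moment0 {𝓛 : ℕ → Finset (List P)} {M : ℝ} (H : Cls 𝓛 M) (c : ℤ) (k m : ℕ) :
    ∑ l ∈ 𝓛 m, (1 + 1 / (2 * M ^ (k + 1))) ^ (X0 c k l).card ≤ 2 * (𝓛 m).card := by
  have hM0 : 0 < M := lt_of_lt_of_le one_pos H.one
  set t : ℝ := 1 / (2 * M ^ (k + 1)) with ht
  have ht0 : 0 < t := by positivity
  have h1 : ∀ l, (1 + t) ^ (X0 c k l).card = ∑ S ∈ (X0 c k l).powerset, t ^ S.card := by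
    intro l
    rw [add_comm, ← Finset.sum_pow_mul_eq_add_pow]
    simp
  simp_rw [h1]
  rw [Finset.sum_sigma']
  set Q := (𝓛 m).sigma (fun l => (X0 c k l).powerset) with hQ
  set J := Q.image (fun q => q.2.card) with hJ
  have h2 : ∑ q ∈ Q, t ^ q.2.card = ∑ j ∈ J, ∑ q ∈ Q.filter (fun q => q.2.card = j), t ^ q.2.card := by
    rw [Finset.sum_fiberwise_of_maps_to]
    intro q hq
    exact Finset.mem_image_of_mem _ hq
  rw [h2]
  have h3 : ∀ j ∈ J, ∑ q ∈ Q.filter (fun q => q.2.card = j), t ^ q.2.card ≤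
      (1 / 2) ^ j * (𝓛 m).card := by
    intro j _
    have h4 : ∑ q ∈ Q.filter (fun q => q.2.card = j), t ^ q.2.card =
        ((Q.filter (fun q => q.2.card = j)).card : ℝ) * t ^ j := by
      rw [Finset.sum_congr rfl (fun q hq => by rw [(Finset.mem_filter.1 hq).2]), Finset.sum_const,
        nsmul_eq_mul]
    rcases Nat.eq_zero_or_pos j with rfl | hj
    · have h5 : (Q.filter (fun q => q.2.card = 0)).card ≤ (𝓛 m).card := by
        refine Finset.card_le_card_of_injOn (fun q => q.1) ?_ ?_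
        · intro q hq
          rw [Finset.mem_coe, Finset.mem_filter, hQ, Finset.mem_sigma] at hq
          exact hq.1.1
        · rintro ⟨l, S⟩ hq ⟨l', S'⟩ hq' h
          rw [Finset.mem_coe, Finset.mem_filter] at hq hq'
          have e1 := Finset.card_eq_zero.1 hq.2
          have e2 := Finset.card_eq_zero.1 hq'.2
          simp only at h e1 e2
          subst h e1 e2
          rfl
      rw [h4, pow_zero, pow_zero, mul_one, one_mul]
      exact_mod_cast h5
    have h5 : (Q.filter (fun q => q.2.card = j)).card ≤ (𝓛 (m + (k + 1) * j)).card := by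
      refine Finset.card_le_card_of_injOn (fun q => sh (spk q.2 k q.1)) ?_ ?_
      · intro q hq
        rw [Finset.mem_coe, Finset.mem_filter, hQ, Finset.mem_sigma, Finset.mem_powerset] at hq
        have hne : q.2.Nonempty := Finset.card_pos.1 (by rw [hq.2]; exact hj)
        rw [Finset.mem_coe, ← hq.2]
        exact H.spike m c k q.1 q.2 hq.1.1 hq.1.2 hne
      · rintro ⟨l, S⟩ hq ⟨l', S'⟩ hq' h
        rw [Finset.mem_coe, Finset.mem_filter, hQ, Finset.mem_sigma, Finset.mem_powerset] at hq hq'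
        obtain ⟨rfl, rfl⟩ := sh_spk_inj (H.ok m _ hq.1.1) (H.ok m _ hq'.1.1) hq.1.2 hq'.1.2 h
        rfl
    have h6 := H.grow m ((k + 1) * j)
    have h7 : ((Q.filter (fun q => q.2.card = j)).card : ℝ) ≤ M ^ ((k + 1) * j) * (𝓛 m).card :=
      le_trans (by exact_mod_cast h5) h6
    rw [h4]
    calc ((Q.filter (fun q => q.2.card = j)).card : ℝ) * t ^ j
        ≤ (M ^ ((k + 1) * j) * (𝓛 m).card) * t ^ j := by gcongr
      _ = (1 / 2) ^ j * (𝓛 m).card := by
        have e2 : (M ^ (k + 1)) ^ j * t ^ j = (1 / 2) ^ j := by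
          rw [← mul_pow, ht]
          congr 1
          field_simp
        rw [pow_mul]
        linear_combination ((𝓛 m).card : ℝ) * e2
  refine (Finset.sum_le_sum h3).trans ?_
  rw [← Finset.sum_mul]
  have h8 := half_sum_le J
  have h9 : (0 : ℝ) ≤ (𝓛 m).card := by positivity
  nlinarith

/-- a finite set of columns -/
noncomputable def G0 (h : ℕ) (l : List P) : Finset ℤ :=
  {(l.headD 0).1, (l.getLastD 0).1} ∪ (Finset.range (h + 1)).biUnion (fun m =>
    ((X0 0 m l ∪ X0 1 m l) ∪ (X0 0 m l ∪ X0 1 m l).image (fun z => z + 1)))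

theorem gd_mem0 {h : ℕ} {l : List P} {x : ℤ} {m : ℕ} (hm : m ≤ h)
    (hg : Gd l x m) : x ∈ G0 h l := by
  unfold G0
  rcases hg with hg | hg | ⟨z, hz, hzR, hzl⟩
  · rw [List.headD_eq_head?_getD, hg]
    simp
  · rw [List.getLastD_eq_getLast?, hg]
    simp
  · have hX : z ∈ X0 0 m l ∪ X0 1 m l := by
      rcases Int.emod_two_eq_zero_or_one z with h1 | h1
      · exact Finset.mem_union_left _ (Finset.mem_filter.2 ⟨hzR, h1, hzl⟩)
      · exact Finset.mem_union_right _ (Finset.mem_filter.2 ⟨hzR, h1, hzl⟩)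
    apply Finset.mem_union_right
    rw [Finset.mem_biUnion]
    refine ⟨m, Finset.mem_range.2 (by omega), ?_⟩
    rcases hz with rfl | rfl
    · exact Finset.mem_union_left _ hX
    · exact Finset.mem_union_right _ (Finset.mem_image_of_mem _ hX)

theorem card_G0 (h : ℕ) (l : List P) : (G0 h l).card ≤
    2 + 2 * ∑ m ∈ Finset.range (h + 1), ((X0 0 m l).card + (X0 1 m l).card) := by
  unfold G0
  refine (Finset.card_union_le _ _).trans (Nat.add_le_add Finset.card_le_two ?_)
  refine Finset.card_biUnion_le.trans ?_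
  rw [Finset.mul_sum]
  refine Finset.sum_le_sum (fun m _ => ?_)
  refine (Finset.card_union_le _ _).trans ?_
  have h1 := Finset.card_union_le (X0 0 m l) (X0 1 m l)
  have h2 := Finset.card_image_le (s := X0 0 m l ∪ X0 1 m l) (f := fun z => z + 1)
  omega

theorem visits_le0 (h : ℕ) {l : List P} (hl : Ok l) :
    visits h l ≤ (2 * h + 1) * (h + 1) *
      (2 + 2 * ∑ m ∈ Finset.range (h + 1), ((X0 0 m l).card + (X0 1 m l).card)) := by
  have h0 := hl.up
  have h1 : visits h l = (l.toFinset.filter (fun p => p.2 ≤ (h : ℤ))).card := by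
    unfold visits
    rw [List.countP_eq_length_filter, ← List.toFinset_card_of_nodup (hl.nodup.filter _),
      List.toFinset_filter]
    congr 1
    ext p
    simp
  have h2 : (l.toFinset.filter (fun p => p.2 ≤ (h : ℤ))) ⊆
      ((G0 h l ×ˢ Finset.Icc (-(h : ℤ)) h) ×ˢ Finset.Icc (0 : ℤ) h).image
        (fun q => (q.1.1 + q.1.2, q.2)) := by
    intro p hp
    rw [Finset.mem_filter, List.mem_toFinset] at hp
    obtain ⟨hp, hph⟩ := hp
    have hex : ∃ j : ℕ, (p.1, (j : ℤ)) ∈ l := ⟨p.2.toNat, by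
      rw [Int.toNat_of_nonneg (h0 p hp)]; exact hp⟩
    have hf : Nat.find hex ≤ p.2.toNat := Nat.find_min' hex (by
      rw [Int.toNat_of_nonneg (h0 p hp)]; exact hp)
    have hp0 := h0 p hp
    obtain ⟨x', m', h6, h7, h8⟩ := column hl.chain hl.nodup h0 (Nat.find hex) p.1
      (Nat.find_spec hex) (by
        intro q hq hqy
        have h9 : Nat.find hex ≤ q.2.toNat := Nat.find_min' hex (by
          rw [Int.toNat_of_nonneg (h0 q hq), ← hqy]
          exact hq)
        have := h0 q hq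
        omega)
    have h10 := gd_mem0 (h := h) (l := l) (by omega) h8
    rw [Finset.mem_image]
    refine ⟨((x', p.1 - x'), p.2), ?_, by simp⟩
    rw [Finset.mem_product, Finset.mem_product, Finset.mem_Icc, Finset.mem_Icc]
    rw [abs_le] at h6
    refine ⟨⟨h10, ?_, ?_⟩, ?_, ?_⟩
    · show -(h : ℤ) ≤ p.1 - x'
      omega
    · show p.1 - x' ≤ h
      omega
    · exact hp0
    · exact hph
  rw [h1]
  refine (Finset.card_le_card h2).trans (Finset.card_image_le.trans ?_)
  rw [Finset.card_product, Finset.card_product, Int.card_Icc, Int.card_Icc]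
  have h3 := card_G0 h l
  have e1 : ((h : ℤ) + 1 - -(h : ℤ)).toNat = 2 * h + 1 := by omega
  have e2 : ((h : ℤ) + 1 - 0).toNat = h + 1 := by omega
  rw [e1, e2]
  calc (G0 h l).card * (2 * h + 1) * (h + 1) = (2 * h + 1) * (h + 1) * (G0 h l).card := by ring
    _ ≤ _ := Nat.mul_le_mul_left _ h3

/-- the exponential moment -/
theorem visits_exp0 {𝓛 : ℕ → Finset (List P)} {M : ℝ} (H : Cls 𝓛 M) (h : ℕ) :
    ∃ α C : ℝ, 0 < α ∧ 0 < C ∧ ∀ n : ℕ,
      ∑ l ∈ 𝓛 n, Real.exp (α * visits h l) ≤ C * (𝓛 n).card := by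
  have hM0 : 0 < M := lt_of_lt_of_le one_pos H.one
  set t : ℝ := 1 / (2 * M ^ (h + 1)) with ht
  have ht0 : 0 < t := by positivity
  have ht1 : t ≤ 1 := by
    rw [ht, div_le_one (by positivity)]
    have : (1 : ℝ) ≤ M ^ (h + 1) := one_le_pow₀ H.one
    linarith
  set m : ℝ := 2 * ((h : ℝ) + 1) with hm
  have hm2 : 2 ≤ m := by
    rw [hm]
    have : (0 : ℝ) ≤ h := by positivity
    linarith
  set A : ℝ := (2 * (h : ℝ) + 1) * ((h : ℝ) + 1) with hA
  have hA0 : 0 < A := by positivity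
  set b : ℝ := Real.log (1 + t) with hb
  have hb0 : 0 < b := Real.log_pos (by linarith)
  have heb : Real.exp b = 1 + t := Real.exp_log (by linarith)
  refine ⟨b / (2 * A * m), 2 * (2 * m), by positivity, by positivity, fun n => ?_⟩
  have key : ∀ l ∈ 𝓛 n, Real.exp (b / (2 * A * m) * visits h l) ≤
      2 * ∑ j ∈ Finset.range (h + 1), ((1 + t) ^ (X0 0 j l).card + (1 + t) ^ (X0 1 j l).card) := by
    intro l hl
    set Y : ℝ := ∑ j ∈ Finset.range (h + 1), (((X0 0 j l).card : ℝ) + (X0 1 j l).card) with hY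
    have h1 : (visits h l : ℝ) ≤ A * (2 + 2 * Y) := by
      have := visits_le0 h (H.ok n l hl)
      have h2 : ((visits h l : ℕ) : ℝ) ≤ (((2 * h + 1) * (h + 1) *
        (2 + 2 * ∑ m ∈ Finset.range (h + 1), ((X0 0 m l).card + (X0 1 m l).card)) : ℕ) : ℝ) := by
        exact_mod_cast this
      refine h2.trans (le_of_eq ?_)
      rw [hA, hY]
      push_cast
      ring
    have h2 : b / (2 * A * m) * visits h l ≤ b + b * (Y / m) := by
      calc b / (2 * A * m) * visits h l ≤ b / (2 * A * m) * (A * (2 + 2 * Y)) := by gcongr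
        _ = b * (1 / m) + b * (Y / m) := by
          field_simp
        _ ≤ b + b * (Y / m) := by
          have : 1 / m ≤ 1 := by rw [div_le_one (by linarith)]; linarith
          nlinarith
    have h3 : ∃ j ∈ Finset.range (h + 1), Y / m ≤ max ((X0 0 j l).card : ℝ) ((X0 1 j l).card : ℝ) := by
      refine Finset.exists_le_of_sum_le (s := Finset.range (h + 1)) ⟨0, by simp⟩ ?_
      have e1 : ∑ _j ∈ Finset.range (h + 1), Y / m = Y / 2 := by
        rw [Finset.sum_const, Finset.card_range, nsmul_eq_mul, hm]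
        push_cast
        field_simp
      rw [e1, hY, Finset.sum_div]
      refine Finset.sum_le_sum (fun j _ => ?_)
      have h4 := le_max_left ((X0 0 j l).card : ℝ) ((X0 1 j l).card : ℝ)
      have h5 := le_max_right ((X0 0 j l).card : ℝ) ((X0 1 j l).card : ℝ)
      linarith
    obtain ⟨j, hj, h4⟩ := h3
    have h5 : Real.exp (b * (Y / m)) ≤ (1 + t) ^ (X0 0 j l).card + (1 + t) ^ (X0 1 j l).card := by
      have e1 : ∀ k : ℕ, Real.exp (b * k) = (1 + t) ^ k := by
        intro k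
        rw [mul_comm, Real.exp_nat_mul, heb]
      rw [← e1, ← e1]
      rcases le_max_iff.1 h4 with h6 | h6
      · have h7 : Real.exp (b * (Y / m)) ≤ Real.exp (b * ((X0 0 j l).card : ℝ)) := by
          apply Real.exp_le_exp.2; gcongr
        have h8 := Real.exp_pos (b * ((X0 1 j l).card : ℝ))
        linarith
      · have h7 : Real.exp (b * (Y / m)) ≤ Real.exp (b * ((X0 1 j l).card : ℝ)) := by
          apply Real.exp_le_exp.2; gcongr
        have h8 := Real.exp_pos (b * ((X0 0 j l).card : ℝ))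
        linarith
    calc Real.exp (b / (2 * A * m) * visits h l) ≤ Real.exp (b + b * (Y / m)) :=
          Real.exp_le_exp.2 h2
      _ = (1 + t) * Real.exp (b * (Y / m)) := by rw [Real.exp_add, heb]
      _ ≤ 2 * ((1 + t) ^ (X0 0 j l).card + (1 + t) ^ (X0 1 j l).card) := by
          gcongr
          linarith
      _ ≤ _ := by
          gcongr
          exact Finset.single_le_sum (f := fun j => (1 + t) ^ (X0 0 j l).card +
            (1 + t) ^ (X0 1 j l).card) (fun _ _ => by positivity) hj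
  refine (Finset.sum_le_sum key).trans ?_
  rw [← Finset.mul_sum, Finset.sum_comm]
  have h6 : ∀ j ∈ Finset.range (h + 1),
      ∑ l ∈ 𝓛 n, ((1 + t) ^ (X0 0 j l).card + (1 + t) ^ (X0 1 j l).card) ≤
        4 * ((𝓛 n).card : ℝ) := by
    intro j hj
    rw [Finset.mem_range] at hj
    have htj : t ≤ 1 / (2 * M ^ (j + 1)) := by
      rw [ht]
      apply one_div_le_one_div_of_le (by positivity)
      have : M ^ (j + 1) ≤ M ^ (h + 1) := pow_le_pow_right₀ H.one (by omega)
      linarith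
    have h7 : ∀ c : ℤ, ∑ l ∈ 𝓛 n, (1 + t) ^ (X0 c j l).card ≤ 2 * ((𝓛 n).card : ℝ) := by
      intro c
      refine (Finset.sum_le_sum (fun l _ => ?_)).trans (exp_moment0 H c j n)
      gcongr
    rw [Finset.sum_add_distrib]
    linarith [h7 0, h7 1]
  refine (mul_le_mul_of_nonneg_left (Finset.sum_le_sum h6) (by norm_num)).trans (le_of_eq ?_)
  rw [Finset.sum_const, Finset.card_range, nsmul_eq_mul, hm]
  push_cast
  ring

end Run7.h206.SV
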