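import Mathlib

/-! # Spikes below exposed horizontal edges of self-avoiding walks on the square grid -/

set_option autoImplicit false

namespace Run7.h206.SV

abbrev P := ℤ × ℤ

/-- neighbours on the square grid -/
def Adj (p q : P) : Prop := |p.1 - q.1| + |p.2 - q.2| = 1

theorem adj_comm {p q : P} : Adj p q ↔ Adj q p := by
  unfold Adj
  rw [abs_sub_comm p.1, abs_sub_comm p.2]

/-- the sites `(x, k - 1), …, (x, -1)` -/
def down : ℕ → ℤ → List P
  | 0, x => [(x, -1)]
  | k + 1, x => (x, (k : ℤ)) :: down k x

theorem mem_down {k : ℕ} {x : ℤ} {p : P} : p ∈ down k x ↔ p.1 = x ∧ -1 ≤ p.2 ∧ p.2 < k := by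
  induction k with
  | zero =>
    simp only [down, List.mem_singleton, Prod.ext_iff, Nat.cast_zero]
    omega
  | succ k ih =>
    simp only [down, List.mem_cons, ih, Prod.ext_iff, Nat.cast_add, Nat.cast_one]
    omega

theorem length_down (k : ℕ) (x : ℤ) : (down k x).length = k + 1 := by
  induction k with
  | zero => rfl
  | succ k ih => simp [down, ih]

theorem nodup_down (k : ℕ) (x : ℤ) : (down k x).Nodup := by
  induction k with
  | zero => simp [down]
  | succ k ih =>
    rw [down, List.nodup_cons]
    refine ⟨fun h => ?_, ih⟩
    have := (mem_down.1 h).2.2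
    simp at this

theorem head_down (k : ℕ) (x : ℤ) : (down k x).head? = some (x, (k : ℤ) - 1) := by
  cases k with
  | zero => simp [down]
  | succ k => simp [down]

theorem last_down (k : ℕ) (x : ℤ) : (down k x).getLast? = some (x, -1) := by
  induction k with
  | zero => simp [down]
  | succ k ih =>
    rw [down, List.getLast?_cons, ih]
    rfl

theorem chain_down (k : ℕ) (x : ℤ) : (down k x).IsChain Adj := by
  induction k with
  | zero => simp [down]
  | succ k ih =>
    rw [down]
    rw [show (x, (k : ℤ)) :: down k x = [(x, (k : ℤ))] ++ down k x from rfl, List.isChain_append]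
    refine ⟨by simp, ih, ?_⟩
    intro a ha b hb
    rw [head_down] at hb
    simp only [List.getLast?_singleton, Option.mem_def, Option.some.injEq] at ha hb
    subst ha hb
    simp [Adj]

/-- the two sites are at height `k` and the smaller first coordinate is in `S` -/
def Sel (S : Finset ℤ) (k : ℕ) (a b : P) : Prop := a.2 = k ∧ b.2 = k ∧ min a.1 b.1 ∈ S

instance (S : Finset ℤ) (k : ℕ) (a b : P) : Decidable (Sel S k a b) := by
  unfold Sel; infer_instance

/-- the sites which are inserted between `a` and `b` -/
def ins (S : Finset ℤ) (k : ℕ) (a b : P) : List P :=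
  if Sel S k a b then down k a.1 ++ (down k b.1).reverse else []

/-- the walk with the spikes -/
def spk (S : Finset ℤ) (k : ℕ) : List P → List P
  | [] => []
  | [a] => [a]
  | a :: b :: l => a :: (ins S k a b ++ spk S k (b :: l))

/-- the left ends of the horizontal edges at height `k` -/
def R (k : ℕ) : List P → Finset ℤ
  | [] => ∅
  | [_] => ∅
  | a :: b :: l => if a.2 = k ∧ b.2 = k then insert (min a.1 b.1) (R k (b :: l)) else R k (b :: l)

theorem mem_ins {S : Finset ℤ} {k : ℕ} {a b p : P} :
    p ∈ ins S k a b ↔ Sel S k a b ∧ (p.1 = a.1 ∨ p.1 = b.1) ∧ -1 ≤ p.2 ∧ p.2 < k := by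
  unfold ins
  split_ifs with h
  · rw [List.mem_append, List.mem_reverse, mem_down, mem_down]
    tauto
  · simp [h]

theorem adj_hor {k : ℕ} {a b : P} (h : Adj a b) (ha : a.2 = k) (hb : b.2 = k) :
    (a.1 = min a.1 b.1 ∧ b.1 = min a.1 b.1 + 1) ∨ (b.1 = min a.1 b.1 ∧ a.1 = min a.1 b.1 + 1) := by
  unfold Adj at h
  rw [ha, hb, sub_self, abs_zero, add_zero] at h
  rcases abs_eq (by norm_num : (0 : ℤ) ≤ 1) |>.1 h with h | h
  · right; omega
  · left; omega

theorem mem_R {k : ℕ} {l : List P} (hc : l.IsChain Adj) {x : ℤ} (hx : x ∈ R k l) :
    (x, (k : ℤ)) ∈ l ∧ (x + 1, (k : ℤ)) ∈ l := by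
  induction l with
  | nil => simp [R] at hx
  | cons a l ih =>
    cases l with
    | nil => simp [R] at hx
    | cons b l =>
      rw [List.isChain_cons_cons] at hc
      rw [R] at hx
      split_ifs at hx with h
      · rw [Finset.mem_insert] at hx
        rcases hx with rfl | hx
        · rcases adj_hor hc.1 h.1 h.2 with ⟨h1, h2⟩ | ⟨h1, h2⟩
          · constructor
            · rw [← h1, ← h.1]; exact List.mem_cons_self
            · rw [← h2, ← h.2]; exact List.mem_cons_of_mem _ List.mem_cons_self
          · constructor
            · rw [← h1, ← h.2]; exact List.mem_cons_of_mem _ List.mem_cons_self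
            · rw [← h2, ← h.1]; exact List.mem_cons_self
        · exact ⟨List.mem_cons_of_mem _ (ih hc.2 hx).1, List.mem_cons_of_mem _ (ih hc.2 hx).2⟩
      · exact ⟨List.mem_cons_of_mem _ (ih hc.2 hx).1, List.mem_cons_of_mem _ (ih hc.2 hx).2⟩

theorem not_mem_R {k : ℕ} {a b : P} {l : List P} (hc : (a :: b :: l).IsChain Adj)
    (hn : (a :: b :: l).Nodup) (ha : a.2 = k) (hb : b.2 = k) : min a.1 b.1 ∉ R k (b :: l) := by
  intro h
  rw [List.isChain_cons_cons] at hc
  obtain ⟨h1, h2⟩ := mem_R hc.2 h
  rw [List.nodup_cons] at hn
  rcases adj_hor hc.1 ha hb with ⟨h3, h4⟩ | ⟨h3, h4⟩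
  · rw [← h3, ← ha] at h1
    exact hn.1 h1
  · rw [← h4, ← ha] at h2
    exact hn.1 h2

theorem sub_spk {S : Finset ℤ} {k : ℕ} {l : List P} {p : P} (h : p ∈ l) : p ∈ spk S k l := by
  induction l with
  | nil => simp at h
  | cons a l ih =>
    cases l with
    | nil => simpa [spk] using h
    | cons b l =>
      rw [spk, List.mem_cons]
      rcases List.mem_cons.1 h with rfl | h
      · exact Or.inl rfl
      · exact Or.inr (List.mem_append_right _ (ih h))

theorem mem_spk {S : Finset ℤ} {k : ℕ} {l : List P} (hc : l.IsChain Adj) {p : P} :
    p ∈ spk S k l ↔ p ∈ l ∨ ∃ x ∈ S, x ∈ R k l ∧ (p.1 = x ∨ p.1 = x + 1) ∧ -1 ≤ p.2 ∧ p.2 < k := by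
  induction l with
  | nil => simp [spk, R]
  | cons a l ih =>
    cases l with
    | nil => simp [spk, R]
    | cons b l =>
      rw [List.isChain_cons_cons] at hc
      rw [spk, List.mem_cons, List.mem_append, ih hc.2, mem_ins, List.mem_cons (a := p) (b := a)]
      by_cases h : a.2 = k ∧ b.2 = k
      · have hR : R k (a :: b :: l) = insert (min a.1 b.1) (R k (b :: l)) := by
          rw [R, if_pos h]
        rw [hR]
        have h5 := adj_hor hc.1 h.1 h.2
        constructor
        · rintro (h1 | ⟨⟨_, _, h2⟩, h3, h4⟩ | h1 | ⟨x, h1, h2, h3, h4⟩)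
          · exact Or.inl (Or.inl h1)
          · refine Or.inr ⟨_, h2, Finset.mem_insert_self _ _, ?_, h4⟩
            omega
          · exact Or.inl (Or.inr h1)
          · exact Or.inr ⟨x, h1, Finset.mem_insert_of_mem h2, h3, h4⟩
        · rintro ((h1 | h1) | ⟨x, h1, h2, h3, h4⟩)
          · exact Or.inl h1
          · exact Or.inr (Or.inr (Or.inl h1))
          · rcases Finset.mem_insert.1 h2 with rfl | h2
            · refine Or.inr (Or.inl ⟨⟨h.1, h.2, h1⟩, ?_, h4⟩)
              omega
            · exact Or.inr (Or.inr (Or.inr ⟨x, h1, h2, h3, h4⟩))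
      · have hR : R k (a :: b :: l) = R k (b :: l) := by
          rw [R, if_neg h]
        rw [hR]
        have h6 : ¬ Sel S k a b := fun h7 => h ⟨h7.1, h7.2.1⟩
        simp only [h6, false_and, false_or]
        exact or_assoc.symm

theorem head_spk {S : Finset ℤ} {k : ℕ} (l : List P) : (spk S k l).head? = l.head? := by
  cases l with
  | nil => rfl
  | cons a l =>
    cases l with
    | nil => rfl
    | cons b l => rfl

theorem spk_ne {S : Finset ℤ} {k : ℕ} {l : List P} (h : l ≠ []) : spk S k l ≠ [] := by
  cases l with
  | nil => exact absurd rfl h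
  | cons a l =>
    cases l with
    | nil => simp [spk]
    | cons b l => simp [spk]

theorem last_spk {S : Finset ℤ} {k : ℕ} (l : List P) : (spk S k l).getLast? = l.getLast? := by
  induction l with
  | nil => rfl
  | cons a l ih =>
    cases l with
    | nil => rfl
    | cons b l =>
      rw [spk, List.getLast?_cons, List.getLast?_append, ih]
      simp [List.getLast?_cons]

theorem chain_spk {S : Finset ℤ} {k : ℕ} {l : List P} (hc : l.IsChain Adj) :
    (spk S k l).IsChain Adj := by
  induction l with
  | nil => simp [spk]
  | cons a l ih =>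
    cases l with
    | nil => simp [spk]
    | cons b l =>
      have hc' := hc
      rw [List.isChain_cons_cons] at hc
      have h1 := ih hc.2
      have hh : (spk S k (b :: l)).head? = some b := by rw [head_spk]; rfl
      rw [spk, show a :: (ins S k a b ++ spk S k (b :: l)) =
        [a] ++ (ins S k a b ++ spk S k (b :: l)) from rfl]
      unfold ins
      split_ifs with h
      · obtain ⟨ha, hb, _⟩ := h
        have hab := hc.1
        unfold Adj at hab
        rw [ha, hb, sub_self, abs_zero, add_zero] at hab
        rw [List.isChain_append, List.isChain_append, List.isChain_append]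
        refine ⟨by simp, ⟨⟨chain_down _ _, ?_, ?_⟩, h1, ?_⟩, ?_⟩
        · rw [List.isChain_reverse]
          exact (chain_down k b.1).imp (fun p q h => adj_comm.1 h)
        · intro x hx y hy
          rw [last_down] at hx
          rw [List.head?_reverse, last_down] at hy
          simp only [Option.mem_def, Option.some.injEq] at hx hy
          subst hx hy
          simp only [Adj, sub_self, abs_zero, add_zero]
          exact hab
        · intro x hx y hy
          rw [hh] at hy
          rw [List.getLast?_append, List.getLast?_reverse, head_down] at hx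
          simp only [Option.mem_def, Option.some_or, Option.some.injEq] at hx hy
          subst hx hy
          simp [Adj, hb]
        · intro x hx y hy
          rw [List.head?_append, List.head?_append, head_down] at hy
          simp only [List.getLast?_singleton, Option.mem_def, Option.some_or,
            Option.some.injEq] at hx hy
          subst hx hy
          simp [Adj, ha]
      · rw [List.nil_append, List.isChain_append]
        refine ⟨by simp, h1, ?_⟩
        intro x hx y hy
        rw [hh] at hy
        simp only [List.getLast?_singleton, Option.mem_def, Option.some.injEq] at hx hy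
        subst hx hy
        exact hc.1

theorem length_spk {S : Finset ℤ} {k : ℕ} {l : List P} (hc : l.IsChain Adj) (hn : l.Nodup) :
    (spk S k l).length = l.length + 2 * (k + 1) * (S ∩ R k l).card := by
  induction l with
  | nil => simp [spk, R]
  | cons a l ih =>
    cases l with
    | nil => simp [spk, R]
    | cons b l =>
      have hc' := hc
      have hn' := hn
      rw [List.isChain_cons_cons] at hc
      rw [List.nodup_cons] at hn
      have h1 := ih hc.2 hn.2
      rw [spk, List.length_cons, List.length_append, h1]
      by_cases h : a.2 = k ∧ b.2 = k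
      · have hR : R k (a :: b :: l) = insert (min a.1 b.1) (R k (b :: l)) := by
          rw [R, if_pos h]
        have h2 := not_mem_R hc' hn' h.1 h.2
        rw [hR]
        unfold ins
        split_ifs with h3
        · rw [List.length_append, List.length_reverse, length_down, length_down,
            Finset.inter_insert_of_mem h3.2.2, Finset.card_insert_of_notMem
              (fun h4 => h2 (Finset.mem_inter.1 h4).2)]
          simp only [List.length_cons]
          ring
        · have h4 : min a.1 b.1 ∉ S := fun h5 => h3 ⟨h.1, h.2, h5⟩
          rw [Finset.inter_insert_of_notMem h4]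
          simp only [List.length_cons, List.length_nil]
          ring
      · have hR : R k (a :: b :: l) = R k (b :: l) := by
          rw [R, if_neg h]
        have h6 : ¬ Sel S k a b := fun h7 => h ⟨h7.1, h7.2.1⟩
        rw [hR]
        unfold ins
        rw [if_neg h6]
        simp only [List.length_cons, List.length_nil]
        ring

/-- in the region below height `k` in the columns `x`, `x + 1` with `x ∈ S` -/
def Reg (S : Finset ℤ) (k : ℕ) (p : P) : Prop := ∃ x ∈ S, (p.1 = x ∨ p.1 = x + 1) ∧ p.2 < k

instance (S : Finset ℤ) (k : ℕ) : DecidablePred (Reg S k) := fun p => by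
  unfold Reg; infer_instance

theorem filter_spk {S : Finset ℤ} {k : ℕ} {l : List P} (hc : l.IsChain Adj)
    (hl : ∀ p ∈ l, ¬ Reg S k p) : (spk S k l).filter (fun p => ¬ Reg S k p) = l := by
  induction l with
  | nil => simp [spk]
  | cons a l ih =>
    cases l with
    | nil =>
      rw [spk, List.filter_cons_of_pos (by simpa using hl a List.mem_cons_self)]
      simp
    | cons b l =>
      rw [List.isChain_cons_cons] at hc
      have h1 := ih hc.2 (fun p hp => hl p (List.mem_cons_of_mem _ hp))
      rw [spk, List.filter_cons_of_pos (by simpa using hl a List.mem_cons_self),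
        List.filter_append, h1]
      have h2 : (ins S k a b).filter (fun p => ¬ Reg S k p) = [] := by
        rw [List.filter_eq_nil_iff]
        intro p hp
        rw [mem_ins] at hp
        obtain ⟨⟨ha, hb, h3⟩, h4, h5, h6⟩ := hp
        have h7 := adj_hor hc.1 ha hb
        have : Reg S k p := ⟨_, h3, by omega, h6⟩
        simpa using this
      rw [h2, List.nil_append]

theorem nodup_spk {S : Finset ℤ} {k : ℕ} {l : List P} {c : ℤ} (hc : l.IsChain Adj)
    (hn : l.Nodup) (hS : ∀ x ∈ S, x % 2 = c) (hl : ∀ p ∈ l, ¬ Reg S k p) :
    (spk S k l).Nodup := by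
  induction l with
  | nil => simp [spk]
  | cons a l ih =>
    cases l with
    | nil => simp [spk]
    | cons b l =>
      have hc' := hc
      have hn' := hn
      rw [List.isChain_cons_cons] at hc
      rw [List.nodup_cons] at hn
      have h1 := ih hc.2 hn.2 (fun p hp => hl p (List.mem_cons_of_mem _ hp))
      rw [spk, List.nodup_cons, List.nodup_append]
      have hareg := hl a List.mem_cons_self
      refine ⟨?_, ?_, h1, ?_⟩
      · rw [List.mem_append, not_or]
        constructor
        · intro h
          rw [mem_ins] at h
          obtain ⟨⟨ha, hb, h3⟩, h4, h5, h6⟩ := h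
          omega
        · intro h
          rw [mem_spk hc.2] at h
          rcases h with h | ⟨x, h2, h3, h4, h5, h6⟩
          · exact hn.1 h
          · exact hareg ⟨x, h2, h4, h6⟩
      · unfold ins
        split_ifs with h
        · rw [List.nodup_append]
          refine ⟨nodup_down _ _, (List.nodup_reverse).2 (nodup_down _ _), ?_⟩
          intro p hp q hq hpq
          subst hpq
          rw [List.mem_reverse, mem_down] at hq
          rw [mem_down] at hp
          have := adj_hor hc.1 h.1 h.2.1
          omega
        · exact List.nodup_nil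
      · intro p hp q hq hpq
        subst hpq
        rw [mem_ins] at hp
        obtain ⟨⟨ha, hb, h3⟩, h4, h5, h6⟩ := hp
        have h7 := adj_hor hc.1 ha hb
        have h8 := not_mem_R hc' hn' ha hb
        rw [mem_spk hc.2] at hq
        rcases hq with hq | ⟨x, h9, h10, h11, h12, h13⟩
        · exact hl p (List.mem_cons_of_mem _ hq) ⟨_, h3, by omega, h6⟩
        · have e1 := hS _ h3
          have e2 := hS x h9
          have : x = min a.1 b.1 := by omega
          rw [this] at h10
          exact h8 h10

end Run7.h206.SV
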